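import Pool.Agent.Lib.MP_6bc78b_nt.GP.H66.MedG2
import Pool.Agent.Lib.MP_6bc78b_nt.GP.H3.Defs10

/-! Project GP10, row MEDK. -/

set_option autoImplicit false

open Complex Filter Topology MeasureTheory ArithmeticFunction Set
open scoped ENNReal

namespace Pool.Agent.Lib.MP_6bc78b_nt.GP.H66

open Pool.Agent.Lib.MP_6bc78b_nt.MS Pool.Agent.Lib.MP_6bc78b_nt.MS.P1
  Pool.Agent.Lib.MP_6bc78b_nt.GP.G7 Pool.Agent.Lib.MP_6bc78b_nt.GP.G8
  Pool.Agent.Lib.MP_6bc78b_nt.GP.G8.H19 Pool.Agent.Lib.MP_6bc78b_nt.GP.G10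

/-- One term, in logarithms: `x = log y₁`, `z = log y₂`. -/
lemma termK {x z d β₁ β₂ : ℝ} {l : ℕ} (hx : 1 ≤ x) (hd : d = β₂ - β₁) (hd0 : 0 < d) (hd1 : d ≤ 1)
    (hβ₁ : 0 ≤ β₁) (hβ : β₁ ≤ 1) (hz : 1 ≤ z) (hl1 : z / x ≤ l) (hl2 : (l : ℝ) ≤ z / x + 1)
    (h4 : 8 * z ≤ Real.exp (d / 16 * x)) (hxz : x ≤ d / 4 * z) :
    Real.exp (-(β₂ * z)) / Real.exp (-(β₁ * x)) ^ l * ((l + 1) *
      ((4 * l / Real.exp x) ^ l * Real.exp z + (2 * l) ^ l)) ≤
      2 * Real.exp (-(7 / 16 * d * z)) := by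
  have hx0 : 0 < x := by linarith
  have hz0 : 0 < z := by linarith
  have hl0 : (0 : ℝ) ≤ l := Nat.cast_nonneg l
  have hlx1 : z ≤ l * x := by
    rw [div_le_iff₀ hx0] at hl1
    exact hl1
  have hlx2 : l * x ≤ z + x := by
    have := mul_le_mul_of_nonneg_right hl2 hx0.le
    have e : (z / x + 1) * x = z + x := by field_simp
    linarith
  have hzx : z / x ≤ z := div_le_self hz0.le hx
  have h4l : 4 * (l : ℝ) ≤ Real.exp (d / 16 * x) := by
    refine le_trans ?_ h4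
    nlinarith
  have hl1' : (l : ℝ) + 1 ≤ Real.exp (d / 16 * x) := by
    refine le_trans ?_ h4
    nlinarith
  have hpow : (4 * (l : ℝ)) ^ l ≤ Real.exp (d / 16 * (z + x)) := by
    calc (4 * (l : ℝ)) ^ l ≤ Real.exp (d / 16 * x) ^ l := pow_le_pow_left₀ (by positivity) h4l l
      _ = Real.exp (d / 16 * (l * x)) := by rw [← Real.exp_nat_mul]; congr 1; ring
      _ ≤ _ := by
        apply Real.exp_le_exp.2
        exact mul_le_mul_of_nonneg_left hlx2 (by positivity)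
  have hpow2 : (2 * (l : ℝ)) ^ l ≤ Real.exp (d / 16 * (z + x)) := by
    refine le_trans ?_ hpow
    exact pow_le_pow_left₀ (by positivity) (by linarith) l
  have hU : 1 / Real.exp (-(β₁ * x)) ^ l = Real.exp (β₁ * (l * x)) := by
    rw [← Real.exp_nat_mul, one_div, ← Real.exp_neg]
    congr 1
    ring
  have hfirst : Real.exp (β₁ * (l * x)) * ((4 * l / Real.exp x) ^ l * Real.exp z) ≤
      Real.exp (β₁ * z + d / 16 * (z + x)) := by
    have e1 : (4 * (l : ℝ) / Real.exp x) ^ l = (4 * (l : ℝ)) ^ l * Real.exp (-(l * x)) := by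
      rw [div_pow, ← Real.exp_nat_mul, div_eq_mul_inv, ← Real.exp_neg]
    rw [e1]
    calc Real.exp (β₁ * (l * x)) * ((4 * (l : ℝ)) ^ l * Real.exp (-(l * x)) * Real.exp z)
        ≤ Real.exp (β₁ * (l * x)) * (Real.exp (d / 16 * (z + x)) * Real.exp (-(l * x)) *
            Real.exp z) := by gcongr
      _ = Real.exp (β₁ * (l * x) + (d / 16 * (z + x) + -(l * x) + z)) := by
          rw [← Real.exp_add, ← Real.exp_add, ← Real.exp_add]
      _ ≤ _ := by
          apply Real.exp_le_exp.2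
          nlinarith
  have hsecond : Real.exp (β₁ * (l * x)) * (2 * (l : ℝ)) ^ l ≤
      Real.exp (β₁ * z + x + d / 16 * (z + x)) := by
    calc Real.exp (β₁ * (l * x)) * (2 * (l : ℝ)) ^ l
        ≤ Real.exp (β₁ * (l * x)) * Real.exp (d / 16 * (z + x)) := by gcongr
      _ = Real.exp (β₁ * (l * x) + d / 16 * (z + x)) := by rw [← Real.exp_add]
      _ ≤ _ := by
          apply Real.exp_le_exp.2
          nlinarith
  have hsum : Real.exp (β₁ * (l * x)) * ((4 * l / Real.exp x) ^ l * Real.exp z + (2 * l) ^ l) ≤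
      2 * Real.exp (β₁ * z + x + d / 16 * (z + x)) := by
    have h1 : β₁ * z + d / 16 * (z + x) ≤ β₁ * z + x + d / 16 * (z + x) := by linarith
    have h2 := add_le_add (hfirst.trans (Real.exp_le_exp.2 h1)) hsecond
    rw [← mul_add] at h2
    refine h2.trans (le_of_eq ?_)
    ring
  calc Real.exp (-(β₂ * z)) / Real.exp (-(β₁ * x)) ^ l * ((l + 1) *
        ((4 * l / Real.exp x) ^ l * Real.exp z + (2 * l) ^ l))
      = Real.exp (-(β₂ * z)) * ((l + 1) * (1 / Real.exp (-(β₁ * x)) ^ l *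
        ((4 * l / Real.exp x) ^ l * Real.exp z + (2 * l) ^ l))) := by ring
    _ = Real.exp (-(β₂ * z)) * ((l + 1) * (Real.exp (β₁ * (l * x)) *
        ((4 * l / Real.exp x) ^ l * Real.exp z + (2 * l) ^ l))) := by rw [hU]
    _ ≤ Real.exp (-(β₂ * z)) * (Real.exp (d / 16 * x) *
        (2 * Real.exp (β₁ * z + x + d / 16 * (z + x)))) := by
        gcongr
    _ = 2 * Real.exp (-(β₂ * z) + (d / 16 * x + (β₁ * z + x + d / 16 * (z + x)))) := by
        have e : Real.exp (-(β₂ * z) + (d / 16 * x + (β₁ * z + x + d / 16 * (z + x)))) =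
            Real.exp (-(β₂ * z)) * (Real.exp (d / 16 * x) *
              Real.exp (β₁ * z + x + d / 16 * (z + x))) := by
          rw [← Real.exp_add, ← Real.exp_add]
        rw [e]
        ring
    _ ≤ _ := by
        refine mul_le_mul_of_nonneg_left (Real.exp_le_exp.2 ?_) (by norm_num)
        have e1 : β₂ = β₁ + d := by rw [hd]; ring
        rw [e1]
        have h1 : d * x ≤ x := by nlinarith
        nlinarith

/-- Row MEDK. -/
theorem medk (hX : CMB2XStatement) (hBX : BASXStatement) : MEDKStatement := by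
  intro a ε ha hε hε1
  obtain ⟨C, hC, hcm⟩ := hX
  set B : ℝ := 1 / (a * ε) + 1 + Real.log (1 / ε ^ 2) with hB
  have hl0 : 0 ≤ Real.log (1 / ε ^ 2) := by
    apply Real.log_nonneg
    rw [le_div_iff₀ (by positivity)]
    nlinarith
  have hB0 : 0 < B := by rw [hB]; positivity
  refine ⟨32 * C * B, by positivity, ?_⟩
  intro η hη hη1
  have ev4 : ∀ᶠ T : ℝ in atTop, a * Real.log T ^ 2 / T ≤ 1 := by
    have h1 : Tendsto (fun T : ℝ => Real.log T ^ 2 / T) atTop (𝓝 0) := by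
      have := (isLittleO_log_rpow_rpow_atTop (2 : ℝ) (one_pos)).tendsto_div_nhds_zero
      refine this.congr (fun T => ?_)
      rw [Real.rpow_one]
      norm_num
    have h2 := (h1.const_mul a)
    rw [mul_zero] at h2
    filter_upwards [h2.eventually (gt_mem_nhds one_pos)] with T hT
    rw [mul_div_assoc]
    exact hT.le
  obtain ⟨T0, hT0⟩ := eventually_atTop.1 (ev4.and (eventually_ge_atTop (max 11 (1 / ε))))
  refine ⟨max T0 11, lt_of_lt_of_le (by norm_num) (le_max_right _ _), ?_⟩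
  intro T h P₁ κ₁ P₂ κ₂ β₁ β₂ K₁ K₂ hT hh1 hhL hP₁ hκ₁ hκ₁' hκ₂ hκ₂' hK₁ hK₂ hβ₁ hβ hβ₂ hQT hW
    h8 hQP hn1 hn2
  obtain ⟨g4, g6⟩ := hT0 T ((le_max_left _ _).trans hT)
  have hT11 : 11 ≤ T := (le_max_left _ _).trans g6
  have hTε : 1 / ε ≤ T := (le_max_right _ _).trans g6
  have hTp : 0 < T := by linarith
  set L : ℝ := Real.log T with hL
  set d : ℝ := β₂ - β₁ with hd
  have hd0 : 0 < d := by rw [hd]; linarith
  have hd1 : d ≤ 1 := by rw [hd]; linarith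
  have hP₁0 : 0 < P₁ := by linarith
  -- the lower scale
  have hy1 : ∀ w : ℕ, P₁ ≤ yb P₁ κ₁ w := by
    intro w
    unfold yb
    have : 1 ≤ Real.exp (κ₁ * w) := Real.one_le_exp (by positivity)
    nlinarith
  have hy1Q : ∀ w : ℕ, w < nb P₁ κ₁ K₁ → yb P₁ κ₁ w ≤ QE P₁ κ₁ K₁ := by
    intro w hw
    unfold QE yb
    have h1 : (w : ℝ) ≤ nb P₁ κ₁ K₁ := by exact_mod_cast hw.le
    have h2 : Real.exp (κ₁ * w) ≤ Real.exp (κ₁ * nb P₁ κ₁ K₁) := by
      apply Real.exp_le_exp.2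
      exact mul_le_mul_of_nonneg_left h1 hκ₁.le
    exact mul_le_mul_of_nonneg_left h2 hP₁0.le
  -- the upper scale is large
  have hP₂00 : 0 < P₂ := by
    by_contra hcon
    rw [not_lt] at hcon
    have h1 : QE P₂ κ₂ K₂ ≤ 0 := by
      unfold QE yb
      exact mul_nonpos_of_nonpos_of_nonneg hcon (Real.exp_pos _).le
    have h2 : Wb P₂ κ₂ K₂ = 0 := by
      unfold Wb Wq
      refine Finset.sum_eq_zero fun q hq => ?_
      rw [qs, Finset.mem_filter, Finset.mem_range, Nat.floor_of_nonpos h1] at hq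
      have h3 : q = 0 := by omega
      rw [h3]
      simp
    linarith
  have hP₂1 : 1 < P₂ := by
    by_contra hcon
    rw [not_lt] at hcon
    have h1 : 3 ≤ QE P₁ κ₁ K₁ := by
      unfold QE
      exact hP₁.trans (hy1 _)
    have h3 : P₂ ^ (d / 4) ≤ 1 := Real.rpow_le_one hP₂00.le hcon (by positivity)
    linarith
  have hP₂0 : 0 < P₂ := by linarith
  have hlog1 : 1 ≤ Real.log P₁ := by
    rw [Real.le_log_iff_exp_le hP₁0]
    have := Real.exp_one_lt_d9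
    linarith
  have hy2 : ∀ v : ℕ, P₂ ≤ yb P₂ κ₂ v := by
    intro v
    unfold yb
    have : 1 ≤ Real.exp (κ₂ * v) := Real.one_le_exp (by positivity)
    nlinarith
  have hy2Q : ∀ v : ℕ, v < nb P₂ κ₂ K₂ → yb P₂ κ₂ v ≤ QE P₂ κ₂ K₂ := by
    intro v hv
    unfold QE yb
    have h1 : (v : ℝ) ≤ nb P₂ κ₂ K₂ := by exact_mod_cast hv.le
    have h2 : Real.exp (κ₂ * v) ≤ Real.exp (κ₂ * nb P₂ κ₂ K₂) := by
      apply Real.exp_le_exp.2
      exact mul_le_mul_of_nonneg_left h1 hκ₂.le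
    exact mul_le_mul_of_nonneg_left h2 hP₂0.le
  have hQE1 : Real.log (QE P₁ κ₁ K₁) ≤ d / 4 * Real.log P₂ := by
    have h1 : 0 < QE P₁ κ₁ K₁ := by
      unfold QE
      exact hP₁0.trans_le (hy1 _)
    have h2 := Real.log_le_log h1 hQP
    rwa [Real.log_rpow hP₂0] at h2
  set n1 : ℕ := nb P₁ κ₁ K₁ with hn1d
  set n2 : ℕ := nb P₂ κ₂ K₂ with hn2d
  set l : ℕ → ℕ → ℕ := fun v w =>
    ⌈Real.log (yb P₂ κ₂ v) / Real.log (yb P₁ κ₁ w)⌉₊ with hl
  have hb1 : a * h / T ≤ 1 := by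
    refine le_trans ?_ g4
    apply div_le_div_of_nonneg_right _ hTp.le
    exact mul_le_mul_of_nonneg_left hhL ha.le
  have key := medG2 hcm hC (κ₁ := κ₁) (l := l) (U := fun w => yb P₁ κ₁ w ^ (-β₁))
    (V := fun v => yb P₂ κ₂ v ^ (-β₂)) (n1 := n1) (F := 4 * L ^ 2)
    (τ := 2 * P₂ ^ (-(7 / 16 * d)))
    ha hε hε1 hκ₁ hκ₁' hκ₂ hTp hh1 hb1 hP₁ hP₂1.le hW hn2d (by positivity)
    (ff_bound hBX hη (by linarith) hTε hε) hB
    (fun w _ => Real.rpow_pos_of_pos (hP₁0.trans_le (hy1 w)) _)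
    (fun v _ => Real.rpow_nonneg (hP₂0.trans_le (hy2 v)).le _) ?_
  · refine key.trans (ENNReal.ofReal_le_ofReal ?_)
    have hn1' : (n1 : ℝ) ≤ P₂ ^ (d / 16) := hn1
    have hn2' : (n2 : ℝ) ≤ P₂ ^ (d / 16) := hn2
    have h3 : (n2 : ℝ) ^ 2 * n1 ≤ P₂ ^ (3 / 16 * d) := by
      calc (n2 : ℝ) ^ 2 * n1 ≤ (P₂ ^ (d / 16)) ^ 2 * P₂ ^ (d / 16) := by gcongr
        _ = P₂ ^ (3 / 16 * d) := by
          rw [← Real.rpow_natCast, ← Real.rpow_mul hP₂0.le, ← Real.rpow_add hP₂0]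
          congr 1
          push_cast
          ring
    have h4 : P₂ ^ (3 / 16 * d) * P₂ ^ (-(7 / 16 * d)) = P₂ ^ (-(d / 4)) := by
      rw [← Real.rpow_add hP₂0]
      congr 1
      ring
    calc (n2 : ℝ) ^ 2 * n1 * (C * B * (2 * P₂ ^ (-(7 / 16 * d)))) * (4 * L ^ 2) ^ 2
        ≤ P₂ ^ (3 / 16 * d) * (C * B * (2 * P₂ ^ (-(7 / 16 * d)))) * (4 * L ^ 2) ^ 2 := by
          gcongr
      _ = 32 * C * B * (P₂ ^ (3 / 16 * d) * P₂ ^ (-(7 / 16 * d))) * L ^ 4 := by ring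
      _ = 32 * C * B * P₂ ^ (-(d / 4)) * L ^ 4 := by rw [h4]
  · intro v hv w hw
    have a1 := hy1 w
    have a2 := hy1Q w hw
    have a3 := hy2 v
    have a4 := hy2Q v hv
    have b1 : 0 < yb P₁ κ₁ w := by linarith
    have b2 : 0 < yb P₂ κ₂ v := by linarith
    set x : ℝ := Real.log (yb P₁ κ₁ w) with hx
    set z : ℝ := Real.log (yb P₂ κ₂ v) with hz
    have e1 : yb P₁ κ₁ w = Real.exp x := (Real.exp_log b1).symm
    have e2 : yb P₂ κ₂ v = Real.exp z := (Real.exp_log b2).symm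
    have hx1 : Real.log P₁ ≤ x := Real.log_le_log hP₁0 a1
    have hx2 : x ≤ Real.log (QE P₁ κ₁ K₁) := Real.log_le_log b1 a2
    have hz1 : Real.log P₂ ≤ z := Real.log_le_log hP₂0 a3
    have hz2 : z ≤ Real.log (QE P₂ κ₂ K₂) := Real.log_le_log b2 a4
    have hxz : x ≤ d / 4 * z := by
      refine (hx2.trans hQE1).trans ?_
      exact mul_le_mul_of_nonneg_left hz1 (by positivity)
    have hz0 : 0 < z := by
      by_contra hcon
      rw [not_lt] at hcon
      have h1 : d / 4 * z ≤ 0 := mul_nonpos_of_nonneg_of_nonpos (by positivity) hcon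
      linarith
    have hzp : 1 ≤ z := by
      have h1 : d / 4 * z ≤ 1 * z := mul_le_mul_of_nonneg_right (by linarith) hz0.le
      linarith
    have h4 : 8 * z ≤ Real.exp (d / 16 * x) := by
      have h5 : 8 * z ≤ P₁ ^ (d / 16) := by linarith
      refine h5.trans ?_
      rw [Real.rpow_def_of_pos hP₁0]
      apply Real.exp_le_exp.2
      rw [mul_comm]
      exact mul_le_mul_of_nonneg_left hx1 (by positivity)
    have hlle : (l v w : ℝ) ≤ z / x + 1 :=
      (Nat.ceil_lt_add_one (div_nonneg (by linarith) (by linarith))).le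
    have h6 := termK (x := x) (z := z) (d := d) (β₁ := β₁) (β₂ := β₂) (l := l v w)
      (by linarith) hd hd0 hd1 hβ₁ (by linarith) hzp (Nat.le_ceil _) hlle h4 hxz
    have e3 : yb P₁ κ₁ w ^ (-β₁) = Real.exp (-(β₁ * x)) := by
      rw [e1, ← Real.exp_mul]
      congr 1
      ring
    have e4 : yb P₂ κ₂ v ^ (-β₂) = Real.exp (-(β₂ * z)) := by
      rw [e2, ← Real.exp_mul]
      congr 1
      ring
    show yb P₂ κ₂ v ^ (-β₂) / (yb P₁ κ₁ w ^ (-β₁)) ^ l v w * (((l v w : ℝ) + 1) *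
      ((4 * (l v w : ℝ) / yb P₁ κ₁ w) ^ l v w * yb P₂ κ₂ v + (2 * (l v w : ℝ)) ^ l v w)) ≤ _
    rw [e3, e4, e1, e2]
    refine h6.trans (mul_le_mul_of_nonneg_left ?_ (by norm_num))
    rw [Real.rpow_def_of_pos hP₂0]
    apply Real.exp_le_exp.2
    have : 7 / 16 * d * Real.log P₂ ≤ 7 / 16 * d * z :=
      mul_le_mul_of_nonneg_left hz1 (by positivity)
    linarith

end Pool.Agent.Lib.MP_6bc78b_nt.GP.H66
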