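import Pool.Agent.Lib.MP_6bc78b_nt.GP.H66.Prb5
import Pool.Agent.Lib.MP_6bc78b_nt.GP.H57.PrbP

/-! GP7, row PRBX, part 6: the row. -/

set_option autoImplicit false

open Complex Filter Topology MeasureTheory Set ArithmeticFunction Metric

namespace Pool.Agent.Lib.MP_6bc78b_nt.GP.H66

open Pool.Agent.Lib.MP_6bc78b_nt.H11

/-- The two forms of the hat function. -/
lemma hatw_eq {x₀ x₁ x₂ : ℝ} (h01 : x₀ < x₁) (h12 : x₁ < x₂) (v : ℝ) :
    max 0 (min ((v - x₀) / (x₁ - x₀)) ((x₂ - v) / (x₂ - x₁))) = hq x₀ x₁ x₂ v := by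
  have d1 : 0 < x₂ - x₁ := sub_pos.2 h12
  have d0 : 0 < x₁ - x₀ := sub_pos.2 h01
  unfold hq
  rcases le_total v x₀ with h | h
  · rw [max_eq_left ((min_le_left _ _).trans (div_nonpos_of_nonpos_of_nonneg (by linarith) d0.le)),
      max_eq_left (by linarith : (0 : ℝ) ≤ x₂ - v), max_eq_left (by linarith : (0 : ℝ) ≤ x₁ - v),
      max_eq_left (by linarith : (0 : ℝ) ≤ x₀ - v)]
    field_simp
    ring
  rcases le_total v x₁ with h' | h'
  · have a1 : (v - x₀) / (x₁ - x₀) ≤ 1 := by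
      rw [div_le_one d0]
      linarith
    have a2 : 1 ≤ (x₂ - v) / (x₂ - x₁) := by
      rw [one_le_div d1]
      linarith
    rw [min_eq_left (a1.trans a2), max_eq_right (div_nonneg (by linarith) d0.le),
      max_eq_left (by linarith : (0 : ℝ) ≤ x₂ - v), max_eq_left (by linarith : (0 : ℝ) ≤ x₁ - v),
      max_eq_right (by linarith : x₀ - v ≤ 0)]
    field_simp
    ring
  rcases le_total v x₂ with h'' | h''
  · have a1 : 1 ≤ (v - x₀) / (x₁ - x₀) := by
      rw [one_le_div d0]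
      linarith
    have a2 : (x₂ - v) / (x₂ - x₁) ≤ 1 := by
      rw [div_le_one d1]
      linarith
    rw [min_eq_right (a2.trans a1), max_eq_right (div_nonneg (by linarith) d1.le),
      max_eq_left (by linarith : (0 : ℝ) ≤ x₂ - v), max_eq_right (by linarith : x₁ - v ≤ 0),
      max_eq_right (by linarith : x₀ - v ≤ 0)]
    ring
  · rw [max_eq_left ((min_le_right _ _).trans (div_nonpos_of_nonpos_of_nonneg (by linarith) d1.le)),
      max_eq_right (by linarith : x₂ - v ≤ 0), max_eq_right (by linarith : x₁ - v ≤ 0),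
      max_eq_right (by linarith : x₀ - v ≤ 0)]
    ring

/-- The size of `Mq` at the nodes. -/
lemma Mq_nodes {L a e : ℝ} (hL : 1 ≤ L) :
    Mq (Real.exp (a - 1 / L)) (Real.exp a) (Real.exp (a + 1 / L)) e ≤
      4 * L * Real.exp (e * (a + 1 / L) - a + 1 / L) := by
  have hL0 : 0 < L := by linarith
  have hθ : 0 < 1 / L := by positivity
  have h1 : Real.exp (a + 1 / L) - Real.exp a ≥ Real.exp (a - 1 / L) / L := by
    have e1 : Real.exp (a + 1 / L) = Real.exp a * Real.exp (1 / L) := Real.exp_add _ _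
    have e2 := Real.add_one_le_exp (1 / L)
    have e3 : Real.exp (a - 1 / L) ≤ Real.exp a := Real.exp_le_exp.2 (by linarith)
    have e4 : Real.exp (a - 1 / L) / L ≤ Real.exp a * (1 / L) := by
      rw [mul_one_div]
      exact div_le_div_of_nonneg_right e3 hL0.le
    have e5 := Real.exp_pos a
    rw [e1]
    nlinarith
  have h2 : Real.exp a - Real.exp (a - 1 / L) ≥ Real.exp (a - 1 / L) / L := by
    have e1 : Real.exp a = Real.exp (a - 1 / L) * Real.exp (1 / L) := by
      rw [← Real.exp_add, sub_add_cancel]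
    have e2 := Real.add_one_le_exp (1 / L)
    have e5 := Real.exp_pos (a - 1 / L)
    have e4 : Real.exp (a - 1 / L) / L = Real.exp (a - 1 / L) * (1 / L) := by rw [mul_one_div]
    rw [e1, e4]
    nlinarith
  have hp : 0 < Real.exp (a - 1 / L) / L := by positivity
  have h3 : 2 * Real.exp (a + 1 / L) ^ e / (Real.exp (a - 1 / L) / L) =
      2 * L * Real.exp (e * (a + 1 / L) - a + 1 / L) := by
    rw [← Real.exp_mul, div_div_eq_mul_div, div_eq_iff (Real.exp_pos _).ne', mul_assoc (2 * L),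
      ← Real.exp_add]
    have e1 : e * (a + 1 / L) - a + 1 / L + (a - 1 / L) = (a + 1 / L) * e := by ring
    rw [e1]
    ring
  unfold Mq
  calc 2 * Real.exp (a + 1 / L) ^ e / (Real.exp (a + 1 / L) - Real.exp a) +
        2 * Real.exp (a + 1 / L) ^ e / (Real.exp a - Real.exp (a - 1 / L))
      ≤ 2 * Real.exp (a + 1 / L) ^ e / (Real.exp (a - 1 / L) / L) +
        2 * Real.exp (a + 1 / L) ^ e / (Real.exp (a - 1 / L) / L) := by
        gcongr
    _ = _ := by
        rw [h3]
        ring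

open G7 in
/-- The sum over all `n`. -/
theorem sumSt : H57.SumStatement := by
  intro hRH
  obtain ⟨C, hC, hS⟩ := sum_le hRH
  have hlt : ∀ᶠ T : ℝ in atTop, Real.log T ^ 13 ≤ T := by
    have h1 := Real.isLittleO_pow_log_id_atTop (n := 13)
    have h2 := h1.bound (show (0 : ℝ) < 1 by norm_num)
    filter_upwards [h2, eventually_ge_atTop (1 : ℝ)] with T hT hT1
    rw [one_mul, id_eq, Real.norm_eq_abs, Real.norm_eq_abs, abs_of_nonneg (by linarith : 0 ≤ T)]
      at hT
    exact (le_abs_self _).trans hT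
  obtain ⟨T1, hT1⟩ := eventually_atTop.1 hlt
  refine ⟨C * (12 * Real.exp 2 + 4 * Real.exp 1), max T1 (Real.exp 8), by positivity, ?_, ?_⟩
  · refine lt_of_lt_of_le ?_ (le_max_right _ _)
    have h1 := Real.exp_one_gt_d9
    have h2 : Real.exp 8 = Real.exp 1 ^ 8 := by
      rw [← Real.exp_nat_mul]
      norm_num
    rw [h2]
    have h3 : (2 : ℝ) ^ 8 ≤ Real.exp 1 ^ 8 := pow_le_pow_left₀ (by norm_num) (by linarith) 8
    norm_num at h3
    linarith
  intro T t j hT ht1 ht2 hj hjL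
  have hT8 : Real.exp 8 ≤ T := (le_max_right _ _).trans hT
  have hT0 : 0 < T := (Real.exp_pos 8).trans_le hT8
  have hTL : Real.log T ^ 13 ≤ T := hT1 T ((le_max_left _ _).trans hT)
  set L := Real.log T with hL
  have hL8 : 8 ≤ L := by
    rw [hL, Real.le_log_iff_exp_le hT0]
    exact hT8
  have hL0 : 0 < L := by linarith
  have hθ : 1 / L ≤ 1 / 8 := one_div_le_one_div_of_le (by norm_num) hL8
  have hθ0 : 0 < 1 / L := by positivity
  have hj1 : (1 : ℝ) ≤ j := by exact_mod_cast hj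
  set a : ℝ := (j : ℝ) / L with ha
  have ha0 : 1 / L ≤ a := div_le_div_of_nonneg_right hj1 hL0.le
  have haL : a ≤ L := hjL
  have haθ : 1 / L * a ≤ 1 := by
    rw [one_div, inv_mul_eq_div, div_le_one hL0]
    exact haL
  have ht0 : 0 < |t| := lt_of_lt_of_le (by positivity) ht1
  have htne : t ≠ 0 := abs_pos.1 ht0
  have n0 : (1 : ℝ) ≤ Real.exp (a - 1 / L) := Real.one_le_exp (by linarith)
  have n01 : Real.exp (a - 1 / L) < Real.exp a := Real.exp_lt_exp.2 (by linarith)
  have n12 : Real.exp a < Real.exp (a + 1 / L) := Real.exp_lt_exp.2 (by linarith)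
  have hs := hS _ _ _ t (1 / L) n0 n01 n12 htne hθ0 hθ
  have hhat : ∀ v : ℝ, hatw (1 / L) j v =
      hq (Real.exp (a - 1 / L)) (Real.exp a) (Real.exp (a + 1 / L)) v := by
    intro v
    rw [← hatw_eq n01 n12]
    unfold hatw
    have e1 : 1 / L * ((j : ℝ) - 1) = a - 1 / L := by rw [ha]; ring
    have e2 : 1 / L * (j : ℝ) = a := by rw [ha]; ring
    have e3 : 1 / L * ((j : ℝ) + 1) = a + 1 / L := by rw [ha]; ring
    rw [e1, e2, e3]
  have hsum : ∑' n : ℕ, ((vonMangoldt n * Real.log n * hatw (1 / L) j n : ℝ) : ℂ) *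
      (n : ℂ) ^ (-(1 + t * I : ℂ)) = ∑' n : ℕ, (Ll n : ℂ) * (n : ℂ) ^ (-(1 + t * I : ℂ)) *
      ((hq (Real.exp (a - 1 / L)) (Real.exp a) (Real.exp (a + 1 / L)) n : ℝ) : ℂ) := by
    refine tsum_congr fun n => ?_
    rw [hhat, Complex.ofReal_mul]
    unfold Ll
    ring
  rw [hsum]
  refine hs.trans ?_
  -- the sizes
  have hE : -((j : ℝ) / (2 * L)) = -(a / 2) := by
    rw [ha]
    field_simp
  rw [hE]
  set E := Real.exp (-(a / 2)) with hEd
  have hE0 : 0 < E := Real.exp_pos _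
  have m1 : Mq (Real.exp (a - 1 / L)) (Real.exp a) (Real.exp (a + 1 / L)) (1 / 2 + 1 / L) ≤
      4 * L * (Real.exp 2 * E) := by
    refine (Mq_nodes (by linarith)).trans (mul_le_mul_of_nonneg_left ?_ (by positivity))
    rw [hEd, ← Real.exp_add, Real.exp_le_exp]
    nlinarith
  have m2 : Mq (Real.exp (a - 1 / L)) (Real.exp a) (Real.exp (a + 1 / L)) (3 / 2) ≤
      4 * L * (Real.exp 1 * (E * T)) := by
    refine (Mq_nodes (by linarith)).trans (mul_le_mul_of_nonneg_left ?_ (by positivity))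
    have e1 : T = Real.exp L := by rw [hL, Real.exp_log hT0]
    rw [hEd, e1, ← Real.exp_add, ← Real.exp_add, Real.exp_le_exp]
    linarith
  have hlog : Real.log (3 + |t|) ≤ 3 * L := by
    have h1 : Real.log (3 + |t|) ≤ Real.log (T ^ 3) := by
      refine Real.log_le_log (by positivity) ?_
      have h2 : (2 : ℝ) ≤ T := by
        have := Real.add_one_le_exp 8
        linarith
      have h3 : T ^ 2 * 2 ≤ T ^ 3 := by
        have : T ^ 3 = T ^ 2 * T := by ring
        rw [this]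
        exact mul_le_mul_of_nonneg_left h2 (by positivity)
      nlinarith
    rwa [Real.log_pow, Nat.cast_ofNat] at h1
  have hlog0 : 0 ≤ Real.log (3 + |t|) := Real.log_nonneg (by have := abs_nonneg t; linarith)
  have hM2 := Mq_nonneg n0 n01 n12 (3 / 2)
  have b1 : Mq (Real.exp (a - 1 / L)) (Real.exp a) (Real.exp (a + 1 / L)) (1 / 2 + 1 / L) *
      Real.log (3 + |t|) / (1 / L) ^ 2 ≤ 12 * Real.exp 2 * (L ^ 4 * E) := by
    calc _ ≤ 4 * L * (Real.exp 2 * E) * (3 * L) / (1 / L) ^ 2 := by gcongr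
      _ = 12 * Real.exp 2 * (L ^ 4 * E) := by
        field_simp
        ring
  have hL13 : L ^ 13 ≤ T := hTL
  have b2 : Mq (Real.exp (a - 1 / L)) (Real.exp a) (Real.exp (a + 1 / L)) (3 / 2) / t ^ 2 ≤
      4 * Real.exp 1 * (L ^ 4 * E) := by
    have c1 : (T / L ^ 6) ^ 2 ≤ t ^ 2 := by
      rw [← sq_abs t]
      exact pow_le_pow_left₀ (by positivity) ht1 2
    have c2 : (1 : ℝ) ≤ L ^ 4 := one_le_pow₀ (by linarith)
    calc _ ≤ 4 * L * (Real.exp 1 * (E * T)) / (T / L ^ 6) ^ 2 := by gcongr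
      _ = 4 * Real.exp 1 * (L ^ 13 / T * E) := by
        field_simp
      _ ≤ 4 * Real.exp 1 * (L ^ 4 * E) := by
        have c3 : L ^ 13 / T ≤ L ^ 4 := by
          refine le_trans ?_ c2
          rw [div_le_one hT0]
          exact hL13
        gcongr
  calc C * (_ + _) ≤ C * (12 * Real.exp 2 * (L ^ 4 * E) + 4 * Real.exp 1 * (L ^ 4 * E)) :=
        mul_le_mul_of_nonneg_left (add_le_add b1 b2) hC.le
    _ = C * (12 * Real.exp 2 + 4 * Real.exp 1) * L ^ 4 * E := by ring

/-- Row PRBX. -/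
theorem prbx : G7.PRBXStatement := G7.H57.prbx_of sumSt

end Pool.Agent.Lib.MP_6bc78b_nt.GP.H66
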