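import Pool.Agent.Lib.MP_6bc78b_nt.GP.H66.MedG
import Pool.Agent.Lib.MP_6bc78b_nt.GP.H62.Defs9a

/-! Project GP9, row MED9L. -/

set_option autoImplicit false

open Complex Filter Topology MeasureTheory ArithmeticFunction Set
open scoped ENNReal

namespace Pool.Agent.Lib.MP_6bc78b_nt.GP.H66

open Pool.Agent.Lib.MP_6bc78b_nt.MS Pool.Agent.Lib.MP_6bc78b_nt.MS.P1
  Pool.Agent.Lib.MP_6bc78b_nt.GP.G7 Pool.Agent.Lib.MP_6bc78b_nt.GP.G8
  Pool.Agent.Lib.MP_6bc78b_nt.GP.G8.H19 Pool.Agent.Lib.MP_6bc78b_nt.GP.G9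

/-- One term. -/
lemma term_bdL {z u g P V : ℝ} {l : ℕ} (hg : 0 < g) (hu : 16 * z ≤ u) (hz : 0 ≤ z)
    (hl1 : u / (2 * g) ≤ l) (hl2 : (l : ℝ) ≤ u / (2 * g) + 1) (hV : 0 < V)
    (hlV : 4 * l / V ≤ Real.exp g) (hP : Real.exp (2 * g) ≤ P) :
    Real.exp (-(3 / 4 * u)) / V ^ l * ((4 * l / P) ^ l * Real.exp u + (2 * l) ^ l) ≤
      2 * Real.exp (-(2 * z) + g) := by
  have hP0 : 0 < P := lt_of_lt_of_le (Real.exp_pos _) hP
  have hgl1 : u / 2 ≤ g * l := by
    rw [div_le_iff₀ (by positivity)] at hl1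
    linarith
  have hgl2 : g * l ≤ u / 2 + g := by
    have h1 : g * l ≤ g * (u / (2 * g) + 1) := mul_le_mul_of_nonneg_left hl2 hg.le
    have h2 : g * (u / (2 * g) + 1) = u / 2 + g := by field_simp
    linarith
  have h1 : (4 * l / P) ^ l / V ^ l ≤ Real.exp (-(u / 2)) := by
    have e1 : (4 * (l : ℝ) / P) ^ l / V ^ l = (4 * l / V / P) ^ l := by
      rw [← div_pow]
      congr 1
      field_simp
    rw [e1]
    have e2 : 4 * (l : ℝ) / V / P ≤ Real.exp (-g) := by
      rw [div_le_iff₀ hP0]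
      calc 4 * (l : ℝ) / V ≤ Real.exp g := hlV
        _ = Real.exp (-g) * Real.exp (2 * g) := by rw [← Real.exp_add]; congr 1; ring
        _ ≤ Real.exp (-g) * P := mul_le_mul_of_nonneg_left hP (Real.exp_pos _).le
    calc (4 * (l : ℝ) / V / P) ^ l ≤ Real.exp (-g) ^ l :=
          pow_le_pow_left₀ (by positivity) e2 l
      _ = Real.exp (-(g * l)) := by rw [← Real.exp_nat_mul]; congr 1; ring
      _ ≤ _ := Real.exp_le_exp.2 (by linarith)
  have h2 : (2 * (l : ℝ)) ^ l / V ^ l ≤ Real.exp (u / 2 + g) := by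
    rw [← div_pow]
    have e2 : 2 * (l : ℝ) / V ≤ Real.exp g := by
      refine le_trans ?_ hlV
      apply div_le_div_of_nonneg_right _ hV.le
      have : (0 : ℝ) ≤ l := Nat.cast_nonneg l
      linarith
    calc (2 * (l : ℝ) / V) ^ l ≤ Real.exp g ^ l := pow_le_pow_left₀ (by positivity) e2 l
      _ = Real.exp (g * l) := by rw [← Real.exp_nat_mul]; congr 1; ring
      _ ≤ _ := Real.exp_le_exp.2 hgl2
  calc Real.exp (-(3 / 4 * u)) / V ^ l * ((4 * l / P) ^ l * Real.exp u + (2 * l) ^ l)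
      = Real.exp (-(3 / 4 * u)) * Real.exp u * ((4 * l / P) ^ l / V ^ l) +
        Real.exp (-(3 / 4 * u)) * ((2 * (l : ℝ)) ^ l / V ^ l) := by ring
    _ ≤ Real.exp (-(3 / 4 * u)) * Real.exp u * Real.exp (-(u / 2)) +
        Real.exp (-(3 / 4 * u)) * Real.exp (u / 2 + g) := by
        apply add_le_add
        · exact mul_le_mul_of_nonneg_left h1 (by positivity)
        · exact mul_le_mul_of_nonneg_left h2 (by positivity)
    _ = Real.exp (-(u / 4)) + Real.exp (-(1 / 4 * u) + g) := by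
        rw [← Real.exp_add, ← Real.exp_add, ← Real.exp_add]
        congr 2 <;> ring
    _ ≤ Real.exp (-(2 * z) + g) + Real.exp (-(2 * z) + g) := by
        apply add_le_add <;> apply Real.exp_le_exp.2
        · linarith
        · linarith
    _ = _ := by ring

/-- Row MED9L. -/
theorem med9l (hX : CMB2XStatement) (hBX : BASXStatement) : MED9LStatement := by
  intro a ε η κ c δ K ha hε hε1 hη hη1 hκ hκ2 hc hc1 hδ hK
  have hBX' := hBX
  obtain ⟨C, hC, hcm⟩ := hX
  set B : ℝ := 1 / (a * ε) + 1 + Real.log (1 / ε ^ 2) with hB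
  have hl0 : 0 ≤ Real.log (1 / ε ^ 2) := by
    apply Real.log_nonneg
    rw [le_div_iff₀ (by positivity)]
    nlinarith
  have hB0 : 0 < B := by rw [hB]; positivity
  set A : ℝ := 18 + 16 * K with hA
  have hA0 : 0 < A := by rw [hA]; positivity
  have hy : Tendsto (fun T : ℝ => Real.log (Real.log (Real.log T))) atTop atTop :=
    Real.tendsto_log_atTop.comp (Real.tendsto_log_atTop.comp Real.tendsto_log_atTop)
  have hz : Tendsto (fun T : ℝ => Real.log (Real.log (Real.log (Real.log T)))) atTop atTop :=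
    Real.tendsto_log_atTop.comp hy
  have ev1 := hz.eventually (ev_one K hκ hc hA0)
  have ev2 := hz.eventually (ev_two K (E := 16 * C * B * 2) hκ hA0 (by positivity) hδ)
  have ev3 := hz.eventually_ge_atTop 3
  have ev4 : ∀ᶠ T : ℝ in atTop, a * Real.log T ^ 2 / T ≤ 1 := by
    have h1 : Tendsto (fun T : ℝ => Real.log T ^ 2 / T) atTop (𝓝 0) := by
      have := (isLittleO_log_rpow_rpow_atTop (2 : ℝ) (one_pos)).tendsto_div_nhds_zero
      refine this.congr (fun T => ?_)
      rw [Real.rpow_one]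
      norm_num
    have h2 := (h1.const_mul a)
    rw [mul_zero] at h2
    filter_upwards [h2.eventually (gt_mem_nhds one_pos)] with T hT
    rw [mul_div_assoc]
    exact hT.le
  have ev5 := hy.eventually_ge_atTop 1
  have ev6 := eventually_ge_atTop (max 11 (1 / ε))
  obtain ⟨T0, hT0⟩ := eventually_atTop.1
    (ev1.and (ev2.and (ev3.and (ev4.and (ev5.and ev6)))))
  refine ⟨max T0 11, lt_of_lt_of_le (by norm_num) (le_max_right _ _), ?_⟩
  intro T h hT hh1 hhL hW
  obtain ⟨g1, g2, g3, g4, g5, g6⟩ := hT0 T ((le_max_left _ _).trans hT)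
  have hT11 : 11 ≤ T := (le_max_left _ _).trans g6
  have hTε : 1 / ε ≤ T := (le_max_right _ _).trans g6
  have hTp : 0 < T := by linarith
  set z : ℝ := Real.log (Real.log (Real.log (Real.log T))) with hzdef
  set L : ℝ := Real.log T with hL
  have hz0 : 0 < z := by linarith
  have hlz : 1 ≤ Real.log z := by
    rw [Real.le_log_iff_exp_le hz0]
    have := Real.exp_one_lt_d9
    linarith
  set g : ℝ := 3 / 2 * Real.log z with hg
  have hg0 : 0 < g := by rw [hg]; positivity
  have hPC : PC T = Real.exp (2 * g) := by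
    have e1 : Real.exp (2 * g) = z ^ 3 := by
      have : 2 * g = Real.log z * 3 := by rw [hg]; ring
      rw [this, Real.exp_mul, Real.exp_log hz0]
      norm_num
    rw [e1]; rfl
  have hlogPC : Real.log (PC T) = 3 * Real.log z := by
    rw [hPC, Real.log_exp, hg]; ring
  have hPC3 : 3 ≤ PC T := by
    have : PC T = z ^ 3 := rfl
    rw [this]
    nlinarith [pow_le_pow_left₀ (by norm_num : (0 : ℝ) ≤ 3) g3 3]
  have hlL : 0 < Real.log (Real.log (Real.log T)) := by linarith
  have hPM : PM T = Real.exp (16 * z) := by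
    have e1 : Real.exp (16 * z) = Real.log (Real.log (Real.log T)) ^ 16 := by
      rw [mul_comm, Real.exp_mul, hzdef, Real.exp_log hlL]
      norm_num
    rw [e1]; rfl
  have hlogPM : Real.log (PM T) = 16 * z := by rw [hPM, Real.log_exp]
  set n1 : ℕ := nb (PC T) κ K with hn1
  set n2 : ℕ := nb (PM T) κ K with hn2
  have hn1b : (n1 : ℝ) ≤ K * (3 * Real.log z) / κ + 1 := by
    rw [hn1, nb, hlogPC]
    exact (Nat.ceil_lt_add_one (by positivity)).le
  have hn2b : (n2 : ℝ) ≤ K * (16 * z) / κ + 1 := by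
    rw [hn2, nb, hlogPM]
    exact (Nat.ceil_lt_add_one (by positivity)).le
  -- the exponents
  set u : ℕ → ℝ := fun v => 16 * z + κ * v with hu
  have hyb : ∀ v : ℕ, yb (PM T) κ v = Real.exp (u v) := by
    intro v
    rw [yb, hPM, ← Real.exp_add]
  set l : ℕ → ℕ := fun v => ⌈u v / (2 * g)⌉₊ with hl
  have hu16 : ∀ v : ℕ, 16 * z ≤ u v := by
    intro v
    simp only [hu]
    have : 0 ≤ κ * (v : ℝ) := by positivity
    linarith
  have hu0 : ∀ v : ℕ, 0 ≤ u v := fun v => by have := hu16 v; linarith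
  have hl1 : ∀ v : ℕ, u v / (2 * g) ≤ l v := fun v => Nat.le_ceil _
  have hl2 : ∀ v : ℕ, (l v : ℝ) ≤ u v / (2 * g) + 1 := by
    intro v
    exact (Nat.ceil_lt_add_one (div_nonneg (hu0 v) (by positivity))).le
  have hlA : ∀ v < n2, (l v : ℝ) ≤ A * z := by
    intro v hv
    have hv' : (v : ℝ) ≤ n2 := by exact_mod_cast hv.le
    have b1 : κ * (v : ℝ) ≤ K * (16 * z) + κ := by
      calc κ * (v : ℝ) ≤ κ * (K * (16 * z) / κ + 1) :=
            mul_le_mul_of_nonneg_left (hv'.trans hn2b) hκ.le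
        _ = K * (16 * z) + κ := by field_simp
    have b2 : u v ≤ (17 + 16 * K) * z := by
      have e1 : (17 + 16 * (K : ℝ)) * z = 16 * z + (K * (16 * z) + z) := by ring
      rw [e1]
      simp only [hu]
      linarith
    have b3 : u v / (2 * g) ≤ u v := by
      apply div_le_self (hu0 v)
      rw [hg]; linarith
    have b4 := hl2 v
    have e2 : A * z = (17 + 16 * (K : ℝ)) * z + z := by rw [hA]; ring
    rw [e2]
    linarith
  have hVC0 : 0 < VC c κ K (PC T) := by
    unfold VC; positivity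
  have hVCeq : VC c κ K (PC T) = c / (1 + (n1 : ℝ)) ^ 2 := rfl
  have hVM : ∀ v : ℕ, VM κ T v = Real.exp (-(3 / 4 * u v)) := by
    intro v
    rw [VM, hyb, ← Real.exp_mul]
    congr 1
    ring
  have hb1 : a * h / T ≤ 1 := by
    refine le_trans ?_ g4
    apply div_le_div_of_nonneg_right _ hTp.le
    exact mul_le_mul_of_nonneg_left hhL ha.le
  have hPM1 : 1 ≤ PM T := by
    rw [hPM]
    exact Real.one_le_exp (by linarith)
  have key := medG hcm hC (l := fun v _ => l v) (U := fun _ => VC c κ K (PC T))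
    (V := fun v => VM κ T v) (n1 := n1) (F := 4 * L ^ 2)
    (τ := 2 * (A * z + 1) * Real.exp (-(2 * z) + 3 / 2 * Real.log z))
    ha hε hε1 hκ hκ2 hTp hh1 hb1 hPC3
    hPM1 hW hn2 (by positivity)
    (ff_bound hBX' hη (by linarith) hTε hε) hB (fun _ _ => hVC0)
    (fun v _ => by
      show 0 ≤ VM κ T v
      rw [hVM]
      exact (Real.exp_pos _).le)
    (fun v hv w hw => by
      have hyw : PC T ≤ yb (PC T) κ w := by
        unfold yb
        have : 1 ≤ Real.exp (κ * w) := Real.one_le_exp (by positivity)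
        nlinarith
      have h2 := term_bdL (z := z) (u := u v) (g := g) (P := yb (PC T) κ w)
        (V := VC c κ K (PC T)) (l := l v) hg0 (hu16 v) hz0.le (hl1 v) (hl2 v) hVC0
        (by rw [hVCeq]; exact g1 (l v) n1 (hlA v hv) hn1b) (by rw [← hPC]; exact hyw)
      show VM κ T v / VC c κ K (PC T) ^ l v * (((l v : ℝ) + 1) *
        ((4 * (l v : ℝ) / yb (PC T) κ w) ^ l v * yb (PM T) κ v + (2 * (l v : ℝ)) ^ l v)) ≤ _
      rw [hVM v, hyb v]
      calc Real.exp (-(3 / 4 * u v)) / VC c κ K (PC T) ^ l v * (((l v : ℝ) + 1) *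
            ((4 * (l v : ℝ) / yb (PC T) κ w) ^ l v * Real.exp (u v) + (2 * (l v : ℝ)) ^ l v))
          = ((l v : ℝ) + 1) * (Real.exp (-(3 / 4 * u v)) / VC c κ K (PC T) ^ l v *
            ((4 * (l v : ℝ) / yb (PC T) κ w) ^ l v * Real.exp (u v) +
              (2 * (l v : ℝ)) ^ l v)) := by ring
        _ ≤ (A * z + 1) * (2 * Real.exp (-(2 * z) + g)) := by
            have := hlA v hv
            have h3 : 0 < yb (PC T) κ w := by linarith
            exact mul_le_mul (by linarith) h2 (by positivity) (by positivity)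
        _ = _ := by rw [hg]; ring)
  refine key.trans (ENNReal.ofReal_le_ofReal ?_)
  have g2' := g2 n1 n2 hn1b hn2b
  calc (n2 : ℝ) ^ 2 * n1 * (C * B * (2 * (A * z + 1) *
        Real.exp (-(2 * z) + 3 / 2 * Real.log z))) * (4 * L ^ 2) ^ 2
      = ((n2 : ℝ) ^ 2 * n1 * (16 * C * B * 2 * (A * z + 1) *
        Real.exp (-(2 * z) + 3 / 2 * Real.log z))) * L ^ 4 := by ring
    _ ≤ δ * L ^ 4 := mul_le_mul_of_nonneg_right g2' (by positivity)

end Pool.Agent.Lib.MP_6bc78b_nt.GP.H66
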