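import Pool.Agent.Lib.MP_6bc78b_nt.GP.H43.Defs10b
import Pool.Agent.Lib.MP_6bc78b_nt.GP.H10.Av
import Pool.Agent.Lib.MP_6bc78b_nt.GP.H61.Lfb

/-! Project GP10: the averaged left line with the polynomial. -/

set_option autoImplicit false

open Complex Filter Topology MeasureTheory Set

namespace Pool.Agent.Lib.MP_6bc78b_nt.GP.H66A

open Pool.Agent.Lib.MP_6bc78b_nt.MS Pool.Agent.Lib.MP_6bc78b_nt.MS.P1
  Pool.Agent.Lib.MP_6bc78b_nt.GP Pool.Agent.Lib.MP_6bc78b_nt.GP.H52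
  Pool.Agent.Lib.MP_6bc78b_nt.GP.H61D Pool.Agent.Lib.MP_6bc78b_nt.GP.G10

/-! ## Averages of almost periodic sums -/

lemma Av_eq (w : ℝ) : G10.Av w = H10A.Av w := by
  funext F t
  unfold G10.Av H10A.Av
  rw [intervalIntegral.integral_comp_add_left F t]
  have h1 : (1 / (2 * (w : ℂ))) = (((2 * w)⁻¹ : ℝ) : ℂ) := by
    push_cast
    rw [one_div]
  rw [h1, ← sub_eq_add_neg]

/-- `∑ c(n) e^{i t v(n)}` -/
noncomputable def aps (c : ℕ → ℂ) (v : ℕ → ℝ) (t : ℝ) : ℂ :=
  ∑' n, c n * Complex.exp (((t * v n : ℝ) : ℂ) * I)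

lemma aps_term (c : ℕ → ℂ) (v : ℕ → ℝ) (t : ℝ) (n : ℕ) :
    ‖c n * Complex.exp (((t * v n : ℝ) : ℂ) * I)‖ = ‖c n‖ := by
  rw [norm_mul, Complex.norm_exp_ofReal_mul_I, mul_one]

lemma aps_summable {c : ℕ → ℂ} (hc : Summable fun n => ‖c n‖) (v : ℕ → ℝ) (t : ℝ) :
    Summable fun n => c n * Complex.exp (((t * v n : ℝ) : ℂ) * I) := by
  refine Summable.of_norm ?_
  simpa only [aps_term] using hc

lemma aps_cont {c : ℕ → ℂ} (hc : Summable fun n => ‖c n‖) (v : ℕ → ℝ) :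
    Continuous (aps c v) := by
  unfold aps
  refine continuous_tsum (fun n => by fun_prop) hc fun n t => ?_
  rw [aps_term]

lemma aps_norm {c : ℕ → ℂ} (hc : Summable fun n => ‖c n‖) (v : ℕ → ℝ) (t : ℝ) :
    ‖aps c v t‖ ≤ ∑' n, ‖c n‖ := by
  unfold aps
  refine (norm_tsum_le_tsum_norm ?_).trans (le_of_eq ?_)
  · simpa only [aps_term] using hc
  · simp only [aps_term]

lemma Av_aps {w : ℝ} (hw : 0 < w) {c : ℕ → ℂ} (hc : Summable fun n => ‖c n‖) (v : ℕ → ℝ) :
    H10A.Av w (aps c v) = aps (fun n => ((Real.sinc (w * v n) : ℝ) : ℂ) * c n) v := by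
  funext t
  unfold H10A.Av aps
  have hs : HasSum (fun n => ∫ x in (-w)..w,
      c n * Complex.exp ((((t + x) * v n : ℝ) : ℂ) * I))
      (∫ x in (-w)..w, ∑' n, c n * Complex.exp ((((t + x) * v n : ℝ) : ℂ) * I)) := by
    refine intervalIntegral.hasSum_integral_of_dominated_convergence
      (fun n _ => ‖c n‖) ?_ ?_ ?_ ?_ ?_
    · intro n
      exact (Continuous.aestronglyMeasurable (by fun_prop))
    · intro n
      refine Eventually.of_forall fun x _ => ?_
      rw [aps_term]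
    · exact Eventually.of_forall fun x _ => hc
    · exact intervalIntegrable_const
    · exact Eventually.of_forall fun x _ => (aps_summable hc v (t + x)).hasSum
  rw [← hs.tsum_eq, ← tsum_mul_left]
  refine tsum_congr fun n => ?_
  rw [intervalIntegral.integral_const_mul]
  have h1 := H10A.Av_exp hw (v n) t
  unfold H10A.Av at h1
  have e1 : ∀ x : ℝ, Complex.exp ((((t + x) * v n : ℝ) : ℂ) * I) =
      Complex.exp ((v n : ℂ) * ((t + x : ℝ) : ℂ) * I) := by
    intro x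
    congr 1
    push_cast
    ring
  have e2 : Complex.exp (((t * v n : ℝ) : ℂ) * I) =
      Complex.exp ((v n : ℂ) * (t : ℂ) * I) := by
    congr 1
    push_cast
    ring
  simp_rw [e1]
  rw [e2]
  calc _ = c n * ((((2 * w)⁻¹ : ℝ) : ℂ) *
        ∫ x in (-w)..w, Complex.exp ((v n : ℂ) * ((t + x : ℝ) : ℂ) * I)) := by ring
    _ = _ := by rw [h1]; ring

lemma sinc_summable {w : ℝ} {c : ℕ → ℂ} (hc : Summable fun n => ‖c n‖) (v : ℕ → ℝ) (k : ℕ) :
    Summable fun n => ‖((Real.sinc (w * v n) : ℝ) : ℂ) ^ k * c n‖ := by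
  refine Summable.of_nonneg_of_le (fun n => norm_nonneg _) (fun n => ?_) hc
  rw [norm_mul, norm_pow, Complex.norm_real, Real.norm_eq_abs]
  have h1 : |Real.sinc (w * v n)| ^ k ≤ 1 := pow_le_one₀ (abs_nonneg _) (Real.abs_sinc_le_one _)
  exact mul_le_of_le_one_left (norm_nonneg _) h1

lemma Av_aps_iter {w : ℝ} (hw : 0 < w) {c : ℕ → ℂ} (hc : Summable fun n => ‖c n‖) (v : ℕ → ℝ)
    (k : ℕ) : (H10A.Av w)^[k] (aps c v) =
      aps (fun n => ((Real.sinc (w * v n) : ℝ) : ℂ) ^ k * c n) v := by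
  induction k with
  | zero => simp
  | succ k ih =>
    rw [Function.iterate_succ_apply', ih, Av_aps hw (sinc_summable hc v k)]
    congr 1
    funext n
    ring

lemma Av_fsum_iter {w : ℝ} (k : ℕ) (S : Finset ℕ) (F : ℕ → ℝ → ℂ) (hF : ∀ m, Continuous (F m)) :
    (H10A.Av w)^[k] (fun t => ∑ m ∈ S, F m t) = fun t => ∑ m ∈ S, (H10A.Av w)^[k] (F m) t := by
  classical
  induction S using Finset.induction_on with
  | empty =>
    simp only [Finset.sum_empty]
    have h := H10A.Av_const_iter (w := w) k 0 (fun _ => 0)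
    simp only [zero_mul] at h
    exact h
  | insert a S ha ih =>
    simp only [Finset.sum_insert ha]
    have h := H10A.Av_add_iter (w := w) k (hF a) (continuous_finsetSum S fun m _ => hF m)
    rw [h, ih]

/-! ## Continuity of the left line in the centre -/

lemma int_cont {a b E : ℝ} (g : ℝ → ℂ) (K : ℝ → ℝ → ℂ) (hK : Continuous (Function.uncurry K))
    (hK0 : ∀ x y, K x y ≠ 0) (hKE : ∀ x y, ‖K x y‖ ≤ E) :
    Continuous fun x => ∫ y in a..b, g y * K x y := by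
  by_cases hg : IntervalIntegrable g volume a b
  · refine intervalIntegral.continuous_of_dominated_interval (bound := fun y => ‖g y‖ * E)
      ?_ ?_ ?_ ?_
    · intro x
      refine (hg.def'.aestronglyMeasurable).mul ?_
      exact (hK.comp (Continuous.prodMk_right x)).aestronglyMeasurable
    · intro x
      refine Eventually.of_forall fun y _ => ?_
      rw [norm_mul]
      exact mul_le_mul_of_nonneg_left (hKE x y) (norm_nonneg _)
    · exact hg.norm.mul_const E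
    · refine Eventually.of_forall fun y _ => ?_
      exact continuous_const.mul (hK.comp (Continuous.prodMk_left y))
  · have h0 : (fun x => ∫ y in a..b, g y * K x y) = fun _ => 0 := by
      funext x
      refine intervalIntegral.integral_undef fun h => hg ?_
      have hc : Continuous fun y => (K x y)⁻¹ :=
        (hK.comp (Continuous.prodMk_right x)).inv₀ fun y => hK0 x y
      have h2 := h.mul_continuousOn hc.continuousOn
      refine h2.congr ?_
      refine fun y _ => ?_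
      simp only
      rw [mul_assoc, mul_inv_cancel₀ (hK0 x y), mul_one]
    rw [h0]
    exact continuous_const

lemma GH_norm_left (H x y : ℝ) :
    ‖GH H x (-(1 / 2) + y * I)‖ ≤ Real.exp (1 / (2 * H ^ 2)) := by
  have hgh : GH H x (-(1 / 2) + y * I) = GSL.kk H x y := by
    unfold GH GSL.kk
    congr 2
    ring
  rw [hgh, GSL.norm_kk]
  exact mul_le_of_le_one_right (Real.exp_pos _).le (GSL.G_le_one _ _ _)

lemma ILG_cont (H A B T δ : ℝ) (S : Finset ℕ) (β : ℕ → ℝ) :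
    Continuous fun x => G10.ILG A B T δ (fun s => pB S β s * GH H x s) := by
  unfold G10.ILG
  refine continuous_const.mul ?_
  have h := int_cont (a := T / 2) (b := 4 * T) (E := Real.exp (1 / (2 * H ^ 2)))
    (fun y => DF A B (-(1 / 2) + y * I) * om0 δ (-(1 / 2) + y * I) *
      pB S β (-(1 / 2) + y * I)) (fun x y => GH H x (-(1 / 2) + y * I))
    (by unfold GH Function.uncurry; fun_prop) (fun x y => Complex.exp_ne_zero _)
    (fun x y => GH_norm_left H x y)
  refine h.congr fun x => ?_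
  refine intervalIntegral.integral_congr fun y _ => ?_
  simp only
  ring

/-! ## The averaged left line -/

/-- The window of the frequencies, spline times Gaussian. -/
noncomputable def wdc (lam H v : ℝ) : ℂ := ((wd lam H v : ℝ) : ℂ)

/-- The coefficients of `∑ trm f w t m n`. -/
noncomputable def tc (f : ℕ → ℂ) (w : ℝ → ℂ) (m n : ℕ) : ℂ :=
  if n = 0 then 0 else f n * (((n : ℝ) ^ (-(1 / 2) : ℝ) * (m : ℝ) ^ (-(1 / 2) : ℝ) : ℝ) : ℂ) *
    w (Real.log n - Real.log m)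

lemma trm_eq (f : ℕ → ℂ) (w : ℝ → ℂ) (t : ℝ) (m n : ℕ) : trm f w t m n =
    tc f w m n * Complex.exp (((t * (Real.log n - Real.log m) : ℝ) : ℂ) * I) := by
  unfold trm tc
  split_ifs with h
  · simp
  · rfl

lemma tc_norm (f : ℕ → ℂ) (w : ℝ → ℂ) (t : ℝ) (m n : ℕ) : ‖tc f w m n‖ = ‖trm f w t m n‖ := by
  rw [trm_eq, norm_mul, Complex.norm_exp_ofReal_mul_I, mul_one]

lemma tsum_trm (f : ℕ → ℂ) (w : ℝ → ℂ) (m : ℕ) (t : ℝ) : ∑' n, trm f w t m n =
    aps (tc f w m) (fun n => Real.log n - Real.log m) t := by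
  unfold aps
  exact tsum_congr fun n => trm_eq f w t m n

lemma tc_le {f : ℕ → ℂ} {κ : ℝ} (hκ : 0 ≤ κ)
    (hf : ∀ n : ℕ, n ≠ 0 → ‖f n‖ ≤ κ * (1 + Real.log n) ^ 2) {H : ℝ} (hH : 0 < H)
    {m : ℕ} (hm : 1 ≤ m) (n : ℕ) :
    ‖tc f (gw H) m n‖ ≤ κ * wt n * (Real.sqrt m * Real.exp (1 / (2 * H ^ 2))) := by
  rw [tc_norm f (gw H) 0 m n]
  exact trm_le hκ hf (gw_exp hH) 0 hm n

lemma tc_summable {f : ℕ → ℂ} {κ : ℝ} (hκ : 0 ≤ κ)
    (hf : ∀ n : ℕ, n ≠ 0 → ‖f n‖ ≤ κ * (1 + Real.log n) ^ 2) {H : ℝ} (hH : 0 < H)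
    {m : ℕ} (hm : 1 ≤ m) : Summable fun n => ‖tc f (gw H) m n‖ :=
  Summable.of_nonneg_of_le (fun _ => norm_nonneg _) (fun n => tc_le hκ hf hH hm n)
    ((wt_summable.mul_left κ).mul_right _)

lemma tc_sum_le {f : ℕ → ℂ} {κ : ℝ} (hκ : 0 ≤ κ)
    (hf : ∀ n : ℕ, n ≠ 0 → ‖f n‖ ≤ κ * (1 + Real.log n) ^ 2) {H : ℝ} (hH : 0 < H)
    {m : ℕ} (hm : 1 ≤ m) : ∑' n, ‖tc f (gw H) m n‖ ≤
      κ * (∑' n, wt n) * (Real.sqrt m * Real.exp (1 / (2 * H ^ 2))) := by
  rw [← tsum_mul_left, ← tsum_mul_right]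
  exact (tc_summable hκ hf hH hm).tsum_le_tsum (fun n => tc_le hκ hf hH hm n)
    ((wt_summable.mul_left κ).mul_right _)

/-- Eight averages of the sum with the Gaussian give the sum with the window `wd`. -/
lemma Av_trm {f : ℕ → ℂ} {κ : ℝ} (hκ : 0 ≤ κ)
    (hf : ∀ n : ℕ, n ≠ 0 → ‖f n‖ ≤ κ * (1 + Real.log n) ^ 2) {H lam : ℝ} (hH : 0 < H)
    (hlam : 0 < lam) {m : ℕ} (hm : 1 ≤ m) (t : ℝ) :
    (H10A.Av (lam / 16))^[8] (aps (tc f (gw H) m) (fun n => Real.log n - Real.log m)) t =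
      ∑' n, trm f (wdc lam H) t m n := by
  rw [Av_aps_iter (by positivity) (tc_summable hκ hf hH hm), tsum_trm]
  congr 1
  funext n
  unfold tc wdc wd gw
  split_ifs with h
  · simp
  · push_cast
    ring

/-- THE AVERAGED LEFT LINE WITH THE POLYNOMIAL. -/
theorem left_av (hF : FEQStatement) (hO : OMDStatement) (hD : DX2Statement) : ∀ A B : ℝ,
    ∃ C T₀ : ℝ, 0 < C ∧ 100 < T₀ ∧ ∀ T t δ H lam : ℝ, T₀ ≤ T → T ≤ t → t ≤ 2 * T → 0 ≤ δ →
    δ ≤ 2 / T → 0 < H → 0 < lam → lam ≤ T / 2 → ∀ (S : Finset ℕ) (β : ℕ → ℝ),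
    (∀ m ∈ S, 1 ≤ m) →
    ‖(G10.Av (lam / 16))^[8] (fun x => G10.ILG A B T δ (fun s => pB S β s * GH H x s)) t -
      (1 / (2 * Real.pi) : ℂ) * ((H * Real.sqrt (2 * Real.pi) : ℝ) : ℂ) * ∑ m ∈ S, (β m : ℂ) *
        (kf δ t * w0 A B t * (∑' n, trm (LSER.cast one) (wdc lam H) t m n) -
          kf δ t * w1 A t * (∑' n, trm (LSER.cast lg) (wdc lam H) t m n) +
          kf δ t * ∑' n, trm (fun n => ((bn 0 0 n : ℝ) : ℂ)) (wdc lam H) t m n)‖ ≤
      C * (Real.exp (1 / (2 * H ^ 2)) * Real.log T ^ 2 * (H * (H + lam)) / T) *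
        ∑ m ∈ S, |β m| * Real.sqrt m := by
  intro A B
  obtain ⟨C1, T1, hC1, hT1, hleft⟩ := left_B hF hO hD A B
  obtain ⟨C, T₀, hC, hT₀, hcoef⟩ := coef hO A B
  obtain ⟨hD1, -, ⟨CB, hCB, hbn⟩⟩ := hD 0 0
  set C' : ℝ := C + 12 with hC'
  set Sw : ℝ := ∑' n, wt n with hSw
  have hSw0 : 0 ≤ Sw := tsum_nonneg wt_nonneg
  refine ⟨C1 + (2 + CB) * Sw * C' + 1, max T1 T₀, by positivity,
    lt_of_lt_of_le hT1 (le_max_left _ _), ?_⟩
  intro T t δ H lam hT ht1 ht2 hδ0 hδ2 hH hlam hlamT S β hS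
  have hTT1 : T1 ≤ T := le_trans (le_max_left _ _) hT
  have hTT : T₀ ≤ T := le_trans (le_max_right _ _) hT
  have hT0 : 0 < T := by linarith
  obtain ⟨hL1, hw0, hw1, hl0, hl1, -⟩ := hcoef T hTT
  set L := Real.log T with hL
  have hL0 : 0 < L := by linarith
  have htm : t ∈ Icc (T / 2) (4 * T) := ⟨by linarith, by linarith⟩
  set mm : ℝ := C' * L ^ 2 / T with hmm
  have hm0 : 0 ≤ mm := by positivity
  have hmeq : 4 / T * (3 * L ^ 2) + C * L ^ 2 / T = mm := by rw [hmm, hC']; ring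
  have hL2 : (1 : ℝ) ≤ L ^ 2 := one_le_pow₀ hL1
  have W0l : ∀ y ∈ Icc (T / 2) (4 * T), ‖kf δ y * w0 A B y - kf δ t * w0 A B t‖ ≤
      mm * |y - t| := fun y hy => by
    have := kf_mul_lip hT0 hδ0 hδ2 hw0 hl0 hy htm
    rwa [hmeq] at this
  have W1l : ∀ y ∈ Icc (T / 2) (4 * T), ‖kf δ y * w1 A y - kf δ t * w1 A t‖ ≤
      mm * |y - t| := fun y hy => by
    have := kf_mul_lip hT0 hδ0 hδ2 hw1 hl1 hy htm
    rwa [hmeq] at this
  have W2l : ∀ y ∈ Icc (T / 2) (4 * T), ‖kf δ y - kf δ t‖ ≤ mm * |y - t| := fun y hy => by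
    refine (kf_lip hT0 hδ0 hδ2 hy htm).trans ?_
    apply mul_le_mul_of_nonneg_right _ (abs_nonneg _)
    rw [← hmeq]
    have h1 : 4 / T * 1 ≤ 4 / T * (3 * L ^ 2) :=
      mul_le_mul_of_nonneg_left (by linarith) (by positivity)
    have h2 : 0 ≤ C * L ^ 2 / T := by positivity
    linarith
  have c0 : ∀ n : ℕ, n ≠ 0 → ‖LSER.cast one n‖ ≤ 1 * (1 + Real.log n) ^ 2 := by
    intro n hn
    have hn1 : (1 : ℝ) ≤ n := by exact_mod_cast Nat.one_le_iff_ne_zero.2 hn
    rw [LSER.cast_one hn]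
    have := Real.log_nonneg hn1
    simp only [Pi.one_apply, norm_one]
    nlinarith
  have c1 : ∀ n : ℕ, n ≠ 0 → ‖LSER.cast lg n‖ ≤ 1 * (1 + Real.log n) ^ 2 := by
    intro n hn
    have hn1 : (1 : ℝ) ≤ n := by exact_mod_cast Nat.one_le_iff_ne_zero.2 hn
    have h0 := Real.log_nonneg hn1
    have : LSER.cast lg n = ((Real.log n : ℝ) : ℂ) := by
      unfold LSER.cast lg
      rw [ArithmeticFunction.log_apply]
    rw [this, Complex.norm_real, Real.norm_of_nonneg h0]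
    nlinarith
  have c2 : ∀ n : ℕ, n ≠ 0 → ‖((bn 0 0 n : ℝ) : ℂ)‖ ≤ CB * (1 + Real.log n) ^ 2 := by
    intro n _
    rw [Complex.norm_real, Real.norm_eq_abs]
    exact hbn n
  -- the pieces
  set E1 : ℝ := Real.exp (1 / (2 * H ^ 2)) with hE1
  have hE10 : 0 < E1 := Real.exp_pos _
  set P0 : ℕ → ℝ → ℂ := fun m => aps (tc (LSER.cast one) (gw H) m)
    (fun n => Real.log n - Real.log m) with hP0
  set P1 : ℕ → ℝ → ℂ := fun m => aps (tc (LSER.cast lg) (gw H) m)
    (fun n => Real.log n - Real.log m) with hP1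
  set P2 : ℕ → ℝ → ℂ := fun m => aps (tc (fun n => ((bn 0 0 n : ℝ) : ℂ)) (gw H) m)
    (fun n => Real.log n - Real.log m) with hP2
  have b0 : ∀ m ∈ S, ∀ x, ‖P0 m x‖ ≤ 1 * Sw * (Real.sqrt m * E1) := fun m hm x =>
    (aps_norm (tc_summable (by norm_num) c0 hH (hS m hm)) _ x).trans
      (tc_sum_le (by norm_num) c0 hH (hS m hm))
  have b1 : ∀ m ∈ S, ∀ x, ‖P1 m x‖ ≤ 1 * Sw * (Real.sqrt m * E1) := fun m hm x =>
    (aps_norm (tc_summable (by norm_num) c1 hH (hS m hm)) _ x).trans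
      (tc_sum_le (by norm_num) c1 hH (hS m hm))
  have b2 : ∀ m ∈ S, ∀ x, ‖P2 m x‖ ≤ CB * Sw * (Real.sqrt m * E1) := fun m hm x =>
    (aps_norm (tc_summable hCB.le c2 hH (hS m hm)) _ x).trans
      (tc_sum_le hCB.le c2 hH (hS m hm))
  -- the frozen sum
  set k0 : ℂ := kf δ t * w0 A B t with hk0
  set k1 : ℂ := kf δ t * w1 A t with hk1
  set k2 : ℂ := kf δ t with hk2
  set cc : ℂ := (1 / (2 * Real.pi) : ℂ) * ((H * Real.sqrt (2 * Real.pi) : ℝ) : ℂ) with hcc
  set Q : ℝ := ∑ m ∈ S, |β m| * Real.sqrt m with hQ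
  have hQ0 : 0 ≤ Q := Finset.sum_nonneg fun m _ => by positivity
  -- the terms, restricted to `S`
  set Fm : ℕ → ℝ → ℂ := fun m x => if m ∈ S then
    cc * ((β m : ℂ) * (k0 * P0 m x - k1 * P1 m x + k2 * P2 m x)) else 0 with hFm
  have hFmc : ∀ m, Continuous (Fm m) := by
    intro m
    by_cases hm : m ∈ S
    · have q0 : Continuous (P0 m) := aps_cont (tc_summable (by norm_num) c0 hH (hS m hm)) _
      have q1 : Continuous (P1 m) := aps_cont (tc_summable (by norm_num) c1 hH (hS m hm)) _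
      have q2 : Continuous (P2 m) := aps_cont (tc_summable hCB.le c2 hH (hS m hm)) _
      simp only [hFm, hm, if_true]
      fun_prop
    · simp only [hFm, hm, if_false]
      exact continuous_const
  set En : ℝ → ℂ := fun x => ∑ m ∈ S, Fm m x with hEn
  have hEnc : Continuous En := continuous_finsetSum S fun m _ => hFmc m
  set Fn : ℝ → ℂ := fun x => G10.ILG A B T δ (fun s => pB S β s * GH H x s) with hFn
  have hFnc : Continuous Fn := ILG_cont H A B T δ S β
  -- the average of the frozen sum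
  have hw : 0 < lam / 16 := by positivity
  have hAvE : (H10A.Av (lam / 16))^[8] En t = cc * ∑ m ∈ S, (β m : ℂ) *
        (k0 * (∑' n, trm (LSER.cast one) (wdc lam H) t m n) -
          k1 * (∑' n, trm (LSER.cast lg) (wdc lam H) t m n) +
          k2 * ∑' n, trm (fun n => ((bn 0 0 n : ℝ) : ℂ)) (wdc lam H) t m n) := by
    rw [hEn, Av_fsum_iter 8 S Fm hFmc, Finset.mul_sum]
    refine Finset.sum_congr rfl fun m hm => ?_
    have q0 : Continuous (P0 m) := aps_cont (tc_summable (by norm_num) c0 hH (hS m hm)) _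
    have q1 : Continuous (P1 m) := aps_cont (tc_summable (by norm_num) c1 hH (hS m hm)) _
    have q2 : Continuous (P2 m) := aps_cont (tc_summable hCB.le c2 hH (hS m hm)) _
    have e1 : Fm m = fun x => cc * ((β m : ℂ) * (k0 * P0 m x - k1 * P1 m x + k2 * P2 m x)) := by
      funext x
      simp only [hFm, hm, if_true]
    rw [e1, H10A.Av_const_iter 8 cc (fun x => (β m : ℂ) *
      (k0 * P0 m x - k1 * P1 m x + k2 * P2 m x))]
    simp only
    rw [H10A.Av_const_iter 8 (β m : ℂ) (fun x => k0 * P0 m x - k1 * P1 m x + k2 * P2 m x)]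
    simp only
    rw [H10A.Av_add_iter 8 (F := fun x => k0 * P0 m x - k1 * P1 m x) (G := fun x => k2 * P2 m x)
      (by fun_prop) (by fun_prop)]
    simp only
    rw [H10A.Av_sub_iter 8 (F := fun x => k0 * P0 m x) (G := fun x => k1 * P1 m x)
      (by fun_prop) (by fun_prop)]
    simp only
    rw [H10A.Av_const_iter 8 k0 (P0 m), H10A.Av_const_iter 8 k1 (P1 m),
      H10A.Av_const_iter 8 k2 (P2 m)]
    simp only
    rw [Av_trm (by norm_num) c0 hH hlam (hS m hm) t, Av_trm (by norm_num) c1 hH hlam (hS m hm) t,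
      Av_trm hCB.le c2 hH hlam (hS m hm) t]
  rw [Av_eq]
  have hsub : (H10A.Av (lam / 16))^[8] Fn t - (H10A.Av (lam / 16))^[8] En t =
      (H10A.Av (lam / 16))^[8] (fun x => Fn x - En x) t := by
    rw [H10A.Av_sub_iter 8 hFnc hEnc]
  rw [← hAvE, hsub]
  refine H10A.Av_norm_iter hw 8 fun x hx => ?_
  have hx1 : |x - t| ≤ lam / 2 := by
    refine hx.trans (le_of_eq ?_)
    push_cast
    ring
  have hx2 := abs_le.1 hx1
  have hxm : x ∈ Icc (T / 2) (4 * T) := ⟨by linarith [hx2.1], by linarith [hx2.2]⟩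
  have hl := hleft T x δ H hTT1 (by linarith [hx2.1]) (by linarith [hx2.2]) hδ0 hδ2 hH S β hS
  -- the sum at `x`
  set En' : ℂ := cc * ∑ m ∈ S, (β m : ℂ) * (kf δ x * w0 A B x * P0 m x -
    kf δ x * w1 A x * P1 m x + kf δ x * P2 m x) with hEn'
  have hl2 : ‖Fn x - En'‖ ≤ C1 * (E1 * L ^ 2 * H ^ 2 / T) * Q := by
    refine le_trans (le_of_eq ?_) hl
    congr 1
    rw [hFn, hEn']
    simp only [hP0, hP1, hP2, tsum_trm]
    rfl
  have hccn : ‖cc‖ ≤ H := by
    rw [hcc, norm_mul]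
    have h1 : (1 / (2 * Real.pi) : ℂ) = ((1 / (2 * Real.pi) : ℝ) : ℂ) := by push_cast; ring
    have hpi := Real.pi_gt_three
    rw [h1, Complex.norm_real, Complex.norm_real, Real.norm_of_nonneg (by positivity),
      Real.norm_of_nonneg (by positivity)]
    have h2 : Real.sqrt (2 * Real.pi) ≤ 2 * Real.pi := by
      rw [Real.sqrt_le_left (by positivity)]
      nlinarith
    calc 1 / (2 * Real.pi) * (H * Real.sqrt (2 * Real.pi)) ≤
        1 / (2 * Real.pi) * (H * (2 * Real.pi)) := by gcongr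
      _ = H := by field_simp
  have hdiff : ‖En' - En x‖ ≤ H * (mm * (lam / 2) * ((2 + CB) * Sw * E1) * Q) := by
    have e1 : En x = cc * ∑ m ∈ S, (β m : ℂ) * (k0 * P0 m x - k1 * P1 m x + k2 * P2 m x) := by
      rw [hEn, Finset.mul_sum]
      refine Finset.sum_congr rfl fun m hm => ?_
      simp only [hFm, hm, if_true]
    rw [hEn', e1, ← mul_sub, ← Finset.sum_sub_distrib, norm_mul]
    refine mul_le_mul hccn ?_ (norm_nonneg _) hH.le
    have hterm : ∀ m ∈ S, ‖(β m : ℂ) * (kf δ x * w0 A B x * P0 m x -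
        kf δ x * w1 A x * P1 m x + kf δ x * P2 m x) -
        (β m : ℂ) * (k0 * P0 m x - k1 * P1 m x + k2 * P2 m x)‖ ≤
        |β m| * Real.sqrt m * (mm * (lam / 2) * ((2 + CB) * Sw * E1)) := by
      intro m hm
      have e2 : (β m : ℂ) * (kf δ x * w0 A B x * P0 m x -
          kf δ x * w1 A x * P1 m x + kf δ x * P2 m x) -
          (β m : ℂ) * (k0 * P0 m x - k1 * P1 m x + k2 * P2 m x) =
          (β m : ℂ) * ((kf δ x * w0 A B x - k0) * P0 m x - (kf δ x * w1 A x - k1) * P1 m x +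
            (kf δ x - k2) * P2 m x) := by ring
      rw [e2, norm_mul, Complex.norm_real, Real.norm_eq_abs, mul_assoc |β m|]
      apply mul_le_mul_of_nonneg_left _ (abs_nonneg _)
      have hml : mm * |x - t| ≤ mm * (lam / 2) := mul_le_mul_of_nonneg_left hx1 hm0
      have g0 : ‖(kf δ x * w0 A B x - k0) * P0 m x‖ ≤
          mm * (lam / 2) * (1 * Sw * (Real.sqrt m * E1)) := by
        rw [norm_mul]
        exact mul_le_mul ((W0l x hxm).trans hml) (b0 m hm x) (norm_nonneg _) (by positivity)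
      have g1 : ‖(kf δ x * w1 A x - k1) * P1 m x‖ ≤
          mm * (lam / 2) * (1 * Sw * (Real.sqrt m * E1)) := by
        rw [norm_mul]
        exact mul_le_mul ((W1l x hxm).trans hml) (b1 m hm x) (norm_nonneg _) (by positivity)
      have g2 : ‖(kf δ x - k2) * P2 m x‖ ≤
          mm * (lam / 2) * (CB * Sw * (Real.sqrt m * E1)) := by
        rw [norm_mul]
        exact mul_le_mul ((W2l x hxm).trans hml) (b2 m hm x) (norm_nonneg _) (by positivity)
      refine (norm_add_le _ _).trans ((add_le_add ((norm_sub_le _ _).trans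
        (add_le_add g0 g1)) g2).trans (le_of_eq ?_))
      ring
    refine (norm_sum_le_of_le _ hterm).trans (le_of_eq ?_)
    rw [← Finset.sum_mul, hQ]
    ring
  have htot : ‖Fn x - En x‖ ≤ C1 * (E1 * L ^ 2 * H ^ 2 / T) * Q +
      H * (mm * (lam / 2) * ((2 + CB) * Sw * E1) * Q) := by
    have e : Fn x - En x = (Fn x - En') + (En' - En x) := by ring
    rw [e]
    exact (norm_add_le _ _).trans (add_le_add hl2 hdiff)
  refine htot.trans ?_
  set Z : ℝ := E1 * L ^ 2 * (H * (H + lam)) / T with hZ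
  have hZ0 : 0 ≤ Z := by positivity
  have z1 : E1 * L ^ 2 * H ^ 2 / T ≤ Z := by
    rw [hZ]
    apply div_le_div_of_nonneg_right _ hT0.le
    apply mul_le_mul_of_nonneg_left _ (by positivity)
    rw [pow_two]
    exact mul_le_mul_of_nonneg_left (by linarith) hH.le
  have z2 : H * (mm * (lam / 2) * ((2 + CB) * Sw * E1)) ≤ (2 + CB) * Sw * C' * Z := by
    have e1 : H * (mm * (lam / 2) * ((2 + CB) * Sw * E1)) =
        (2 + CB) * Sw * C' * (E1 * L ^ 2 * (H * (lam / 2)) / T) := by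
      rw [hmm]
      ring
    rw [e1]
    apply mul_le_mul_of_nonneg_left _ (by positivity)
    rw [hZ]
    apply div_le_div_of_nonneg_right _ hT0.le
    apply mul_le_mul_of_nonneg_left _ (by positivity)
    exact mul_le_mul_of_nonneg_left (by linarith) hH.le
  calc C1 * (E1 * L ^ 2 * H ^ 2 / T) * Q + H * (mm * (lam / 2) * ((2 + CB) * Sw * E1) * Q)
      = C1 * (E1 * L ^ 2 * H ^ 2 / T) * Q + H * (mm * (lam / 2) * ((2 + CB) * Sw * E1)) * Q := by
        ring
    _ ≤ C1 * Z * Q + (2 + CB) * Sw * C' * Z * Q := by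
        apply add_le_add
        · exact mul_le_mul_of_nonneg_right (mul_le_mul_of_nonneg_left z1 hC1.le) hQ0
        · exact mul_le_mul_of_nonneg_right z2 hQ0
    _ ≤ (C1 + (2 + CB) * Sw * C' + 1) * Z * Q := by
        have h1 : 0 ≤ Z * Q := mul_nonneg hZ0 hQ0
        have h2 : (C1 + (2 + CB) * Sw * C' + 1) * Z * Q =
            C1 * Z * Q + (2 + CB) * Sw * C' * Z * Q + Z * Q := by ring
        rw [h2]
        linarith

end Pool.Agent.Lib.MP_6bc78b_nt.GP.H66A
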