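import Pool.Agent.Lib.MP_6bc78b_nt.GP.H43.Defs10t
import Pool.Agent.Lib.MP_6bc78b_nt.GP.H66.Mainb1

/-! Project GP10, row MAINT1: the averaged left line as Dirichlet polynomials, for `B` of length
`T^(1/100)`. -/

set_option autoImplicit false

open Complex Filter Topology MeasureTheory Set

namespace Pool.Agent.Lib.MP_6bc78b_nt.GP.H66T

open Pool.Agent.Lib.MP_6bc78b_nt.MS Pool.Agent.Lib.MP_6bc78b_nt.MS.P1
  Pool.Agent.Lib.MP_6bc78b_nt.GP Pool.Agent.Lib.MP_6bc78b_nt.GP.H52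
  Pool.Agent.Lib.MP_6bc78b_nt.GP.H61D Pool.Agent.Lib.MP_6bc78b_nt.GP.G10
  Pool.Agent.Lib.MP_6bc78b_nt.GP.H66A

lemma num_small' (K : ℝ) (hK : 0 < K) : ∃ L0 : ℝ, 1 ≤ L0 ∧ ∀ L : ℝ, L0 ≤ L →
    K * L ^ 3 * Real.exp (3 / 200 * L) ≤ Real.exp L := by
  have h1 := (isLittleO_pow_exp_pos_mul_atTop (b := 1 / 2) 3 (by norm_num)).bound
    (c := 1 / K) (by positivity)
  obtain ⟨L0, hL0⟩ := eventually_atTop.1 (h1.and (eventually_ge_atTop (1 : ℝ)))
  refine ⟨max L0 1, le_max_right _ _, fun L hL => ?_⟩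
  obtain ⟨g1, g3⟩ := hL0 L (le_trans (le_max_left _ _) hL)
  have hL1 : 0 < L := by linarith
  rw [Real.norm_of_nonneg (by positivity), Real.norm_of_nonneg (Real.exp_pos _).le] at g1
  have e1 : K * L ^ 3 ≤ Real.exp (1 / 2 * L) := by
    calc K * L ^ 3 ≤ K * (1 / K * Real.exp (1 / 2 * L)) :=
          mul_le_mul_of_nonneg_left g1 hK.le
      _ = Real.exp (1 / 2 * L) := by field_simp
  have e2 : Real.exp (3 / 200 * L) ≤ Real.exp (1 / 2 * L) :=
    Real.exp_le_exp.2 (by linarith)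
  calc K * L ^ 3 * Real.exp (3 / 200 * L) ≤
      Real.exp (1 / 2 * L) * Real.exp (1 / 2 * L) :=
        mul_le_mul e1 e2 (Real.exp_pos _).le (Real.exp_pos _).le
    _ = Real.exp L := by rw [← Real.exp_add]; congr 1; ring

/-- MAINT1. -/
theorem maint1 (hF : FEQStatement) (hO : OMDStatement) (hD : DX2Statement) :
    MAINT1Statement := by
  intro A B lam hlam
  obtain ⟨C, T₀, hC, hT₀, hmain⟩ := left_av hF hO hD A B
  obtain ⟨-, -, ⟨CB, hCB, hbn⟩⟩ := hD 0 0
  have hlam0 : 0 < lam := by linarith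
  obtain ⟨L0, hL01, hL0⟩ := num_small' (C * (2 * lam ^ 2)) (by positivity)
  refine ⟨max T₀ (max (Real.exp L0) (max (Real.exp (Real.exp 1)) (2 * lam))),
    lt_of_lt_of_le (by linarith) (le_max_left _ _), ?_⟩
  intro T t δ S β hT ht1 ht2 hδ1 hδ2 hM
  have hTT : T₀ ≤ T := le_trans (le_max_left _ _) hT
  have hTL : Real.exp L0 ≤ T := le_trans (le_trans (le_max_left _ _) (le_max_right _ _)) hT
  have hTe : Real.exp (Real.exp 1) ≤ T :=
    le_trans (le_trans (le_trans (le_max_left _ _) (le_max_right _ _)) (le_max_right _ _)) hT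
  have hTlam : 2 * lam ≤ T :=
    le_trans (le_trans (le_trans (le_max_right _ _) (le_max_right _ _)) (le_max_right _ _)) hT
  have hT0 : 0 < T := by linarith
  set L := Real.log T with hL
  have hLL0 : L0 ≤ L := by
    rw [hL, ← Real.log_exp L0]
    exact Real.log_le_log (Real.exp_pos _) hTL
  have hLe : Real.exp 1 ≤ L := by
    rw [hL, ← Real.log_exp (Real.exp 1)]
    exact Real.log_le_log (Real.exp_pos _) hTe
  have hL1 : 1 ≤ L := le_trans hL01 hLL0
  have hLpos : 0 < L := by linarith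
  set l := Real.log L with hl
  have hl1 : 1 ≤ l := by
    rw [hl, ← Real.log_exp 1]
    exact Real.log_le_log (Real.exp_pos _) hLe
  have hl0 : 0 < l := by linarith
  set H := HH T lam with hH
  have hHdef : H = lam / (10 * Real.sqrt l) := rfl
  have hsl : 0 < Real.sqrt l := Real.sqrt_pos.2 hl0
  have hsl1 : 1 ≤ Real.sqrt l := Real.one_le_sqrt.2 hl1
  have hHpos : 0 < H := by rw [hHdef]; positivity
  have hHlam : H ≤ lam := by
    rw [hHdef, div_le_iff₀ (by positivity)]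
    nlinarith
  have hδ0 : 0 ≤ δ := le_trans (by positivity) hδ1
  have hm1 := hM.one_le
  have h := hmain T t δ H lam hTT ht1 ht2 hδ0 hδ2 hHpos hlam0 (by linarith) S β hm1
  -- coefficients
  have c0 : ∀ n : ℕ, n ≠ 0 → ‖LSER.cast one n‖ ≤ 1 * (1 + Real.log n) ^ 2 := by
    intro n hn
    have hn1 : (1 : ℝ) ≤ n := by exact_mod_cast Nat.one_le_iff_ne_zero.2 hn
    rw [LSER.cast_one hn]
    have := Real.log_nonneg hn1
    simp only [Pi.one_apply, norm_one]
    nlinarith
  have clg : ∀ n : ℕ, LSER.cast lg n = ((Real.log n : ℝ) : ℂ) := by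
    intro n
    unfold LSER.cast lg
    rw [ArithmeticFunction.log_apply]
  have c1 : ∀ n : ℕ, n ≠ 0 → ‖LSER.cast lg n‖ ≤ 1 * (1 + Real.log n) ^ 2 := by
    intro n hn
    have hn1 : (1 : ℝ) ≤ n := by exact_mod_cast Nat.one_le_iff_ne_zero.2 hn
    have h0 := Real.log_nonneg hn1
    rw [clg, Complex.norm_real, Real.norm_of_nonneg h0]
    nlinarith
  have c2 : ∀ n : ℕ, n ≠ 0 → ‖((bn 0 0 n : ℝ) : ℂ)‖ ≤ CB * (1 + Real.log n) ^ 2 := by
    intro n _
    rw [Complex.norm_real, Real.norm_eq_abs]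
    exact hbn n
  have d0 := DW_eq (a := fun _ => (1 : ℝ)) (f := LSER.cast one) (fun n hn => by
    rw [LSER.cast_one hn]; simp) (by norm_num) c0 (lam := lam) hHpos hm1 β t
  have d1 := DW_eq (a := fun n => Real.log n) (f := LSER.cast lg) (fun n _ => clg n)
    (by norm_num) c1 (lam := lam) hHpos hm1 β t
  have d2 := DW_eq (a := bn 0 0) (f := fun n => ((bn 0 0 n : ℝ) : ℂ)) (fun n _ => rfl)
    hCB.le c2 (lam := lam) hHpos hm1 β t
  have hsum : ∑ m ∈ S, (β m : ℂ) *
        (kf δ t * w0 A B t * (∑' n, trm (LSER.cast one) (wdc lam H) t m n) -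
          kf δ t * w1 A t * (∑' n, trm (LSER.cast lg) (wdc lam H) t m n) +
          kf δ t * ∑' n, trm (fun n => ((bn 0 0 n : ℝ) : ℂ)) (wdc lam H) t m n) =
      kf δ t * w0 A B t * DW (fun _ => 1) lam H S β t -
          kf δ t * w1 A t * DW (fun n => Real.log n) lam H S β t +
          kf δ t * DW (bn 0 0) lam H S β t := by
    rw [← d0, ← d1, ← d2, Finset.mul_sum, Finset.mul_sum, Finset.mul_sum,
      ← Finset.sum_sub_distrib, ← Finset.sum_add_distrib]
    refine Finset.sum_congr rfl fun m _ => ?_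
    ring
  have hcc : (1 / (2 * Real.pi) : ℂ) * ((H * Real.sqrt (2 * Real.pi) : ℝ) : ℂ) =
      ((H / Real.sqrt (2 * Real.pi) : ℝ) : ℂ) := by
    have h1 : (1 / (2 * Real.pi) : ℂ) = ((1 / (2 * Real.pi) : ℝ) : ℂ) := by push_cast; ring
    rw [h1, ← Complex.ofReal_mul]
    congr 1
    have h2 : Real.sqrt (2 * Real.pi) ^ 2 = 2 * Real.pi := Real.sq_sqrt (by positivity)
    have h3 : 0 < Real.sqrt (2 * Real.pi) := Real.sqrt_pos.2 (by positivity)
    rw [div_mul_eq_mul_div, one_mul, div_eq_div_iff (by positivity) h3.ne']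
    calc H * Real.sqrt (2 * Real.pi) * Real.sqrt (2 * Real.pi) =
        H * Real.sqrt (2 * Real.pi) ^ 2 := by ring
      _ = H * (2 * Real.pi) := by rw [h2]
  rw [hsum, hcc] at h
  refine h.trans ?_
  -- the error
  set N : ℝ := Real.exp (1 / 100 * L) with hN
  have hQ : ∑ m ∈ S, |β m| * Real.sqrt m ≤ Real.exp (3 / 200 * L) := by
    have h1 : ∀ m ∈ S, |β m| * Real.sqrt m ≤ β m / m * Real.exp (3 / 200 * L) := by
      intro m hm
      have hm0 : (0 : ℝ) < m := by exact_mod_cast hm1 m hm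
      have hb := hM.nonneg m
      have hmN : (m : ℝ) ≤ N := by
        have h0 := hM.le m hm
        have h1 : T ^ (1 / 100 : ℝ) = N := by
          rw [hN, Real.rpow_def_of_pos hT0]
          congr 1
          ring
        rwa [h1] at h0
      rw [abs_of_nonneg hb]
      have h2 : Real.exp (3 / 200 * L) = N * Real.sqrt N := by
        rw [hN, Real.sqrt_eq_rpow, ← Real.exp_mul, ← Real.exp_add]
        congr 1
        ring
      rw [h2]
      have h3 : (m : ℝ) * Real.sqrt m ≤ N * Real.sqrt N :=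
        mul_le_mul hmN (Real.sqrt_le_sqrt hmN) (Real.sqrt_nonneg _) (Real.exp_pos _).le
      calc β m * Real.sqrt m = β m / m * (m * Real.sqrt m) := by field_simp
        _ ≤ β m / m * (N * Real.sqrt N) := mul_le_mul_of_nonneg_left h3 (by positivity)
    refine (Finset.sum_le_sum h1).trans (le_of_eq ?_)
    rw [← Finset.sum_mul, hM.sum_one, one_mul]
  have hE : Real.exp (1 / (2 * H ^ 2)) ≤ L := by
    have h1 : 1 / (2 * H ^ 2) ≤ l := by
      rw [div_le_iff₀ (by positivity)]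
      have h2 : H ^ 2 = lam ^ 2 / (100 * l) := by
        rw [hHdef, div_pow, mul_pow, Real.sq_sqrt hl0.le]
        norm_num
      rw [h2]
      have h3 : l * (2 * (lam ^ 2 / (100 * l))) = lam ^ 2 / 50 := by
        field_simp
        norm_num
      rw [h3]
      nlinarith
    calc Real.exp (1 / (2 * H ^ 2)) ≤ Real.exp l := Real.exp_le_exp.2 h1
      _ = L := by rw [hl, Real.exp_log hLpos]
  have hHH : H * (H + lam) ≤ 2 * lam ^ 2 := by nlinarith
  have hfin := hL0 L hLL0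
  rw [hL, Real.exp_log hT0, ← hL] at hfin
  have hZ : Real.exp (1 / (2 * H ^ 2)) * L ^ 2 * (H * (H + lam)) / T ≤
      L ^ 3 * (2 * lam ^ 2) / T := by
    apply div_le_div_of_nonneg_right _ hT0.le
    calc Real.exp (1 / (2 * H ^ 2)) * L ^ 2 * (H * (H + lam)) ≤ L * L ^ 2 * (2 * lam ^ 2) := by
          apply mul_le_mul _ hHH (by positivity) (by positivity)
          exact mul_le_mul_of_nonneg_right hE (by positivity)
      _ = L ^ 3 * (2 * lam ^ 2) := by ring
  have hQ0 : 0 ≤ ∑ m ∈ S, |β m| * Real.sqrt m := Finset.sum_nonneg fun m _ => by positivity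
  calc C * (Real.exp (1 / (2 * H ^ 2)) * L ^ 2 * (H * (H + lam)) / T) *
        ∑ m ∈ S, |β m| * Real.sqrt m
      ≤ C * (L ^ 3 * (2 * lam ^ 2) / T) * Real.exp (3 / 200 * L) := by
        apply mul_le_mul _ hQ hQ0 (by positivity)
        exact mul_le_mul_of_nonneg_left hZ hC.le
    _ = (C * (2 * lam ^ 2) * L ^ 3 * Real.exp (3 / 200 * L)) / T := by ring
    _ ≤ T / T := div_le_div_of_nonneg_right hfin hT0.le
    _ = 1 := div_self hT0.ne'

end Pool.Agent.Lib.MP_6bc78b_nt.GP.H66T
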