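import Pool.Agent.Lib.MP_6bc78b_nt.GP.H66.MedG

/-! Project GP10: two scales of primes with different widths of the blocks, without
asymptotics. -/

set_option autoImplicit false

open Complex Filter Topology MeasureTheory ArithmeticFunction Set
open scoped ENNReal

namespace Pool.Agent.Lib.MP_6bc78b_nt.GP.H66

open Pool.Agent.Lib.MP_6bc78b_nt.MS Pool.Agent.Lib.MP_6bc78b_nt.MS.P1
  Pool.Agent.Lib.MP_6bc78b_nt.GP.G7 Pool.Agent.Lib.MP_6bc78b_nt.GP.G8
  Pool.Agent.Lib.MP_6bc78b_nt.GP.G8.H19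

/-- Two scales `P1` (small) and `P2` (large), thresholds `U w`, `V v`, powers `l v w`:
if every single term is at most `τ`, then the integral is at most `n2² n1 16 C B τ F²`,
where `F` bounds the coefficients. -/
theorem medG2 {C : ℝ}
    (hcm : ∀ (P Q b F M₁ M₂ : ℝ) (k : ℕ) (α : ℕ → ℂ),
      2 ≤ P → P < Q → Wq P Q ≤ 1 → 0 < b → b ≤ 1 → 0 < M₁ → M₁ ≤ M₂ → 0 ≤ F →
      (∀ m, ‖α m‖ ≤ F) →
      ∫⁻ t : ℝ, ENNReal.ofReal (‖(∑ m ∈ Finset.Ioc ⌊M₁⌋₊ ⌊M₂⌋₊,
          α m * (m : ℂ) ^ (-(1 + t * I : ℂ))) * Qp P Q t ^ k‖ ^ 2 * Real.exp (-(b * |t|))) ≤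
        ENNReal.ofReal (C * F ^ 2 * (k + 1) * ((4 * k / P) ^ k / (b * M₁) +
          (2 * k) ^ k * (1 + Real.log (M₂ / M₁)))))
    (hC : 0 < C) {a ε η κ₁ κ T h P1 P2 F B τ : ℝ} {K n1 n2 : ℕ} {U V : ℕ → ℝ} {l : ℕ → ℕ → ℕ}
    (ha : 0 < a) (hε : 0 < ε) (hε1 : ε < 1) (hκ₁ : 0 < κ₁) (hκ₁2 : κ₁ ≤ 1 / 2) (hκ : 0 < κ)
    (hT : 0 < T) (hh : 1 ≤ h) (hb : a * h / T ≤ 1) (hP1 : 3 ≤ P1) (hP2 : 1 ≤ P2)
    (hW : 1 ≤ Wb P2 κ K) (hn2 : n2 = nb P2 κ K) (hF : 0 ≤ F)
    (hff : ∀ m : ℕ, (m : ℝ) ≤ T / ε → |ff η T m| ≤ F)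
    (hB : B = 1 / (a * ε) + 1 + Real.log (1 / ε ^ 2))
    (hU : ∀ w < n1, 0 < U w) (hV : ∀ v < n2, 0 ≤ V v)
    (hτ : ∀ v < n2, ∀ w < n1, V v / U w ^ l v w * ((l v w + 1) *
      ((4 * l v w / yb P1 κ₁ w) ^ l v w * yb P2 κ v + (2 * l v w) ^ l v w)) ≤ τ) :
    ∫⁻ t in {t : ℝ | (∃ w < n1, U w < ‖Qb P1 κ₁ w t‖ ^ 2) ∧ ∀ v < n2, ‖Qb P2 κ v t‖ ^ 2 ≤ V v},
      ENNReal.ofReal (‖Fb ε η κ K P2 T t‖ ^ 2 * Real.exp (-(a * h / T * |t|))) ≤
      ENNReal.ofReal ((n2 : ℝ) ^ 2 * n1 * (C * B * τ) * F ^ 2) := by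
  have hl0 : 0 ≤ Real.log (1 / ε ^ 2) := by
    apply Real.log_nonneg
    rw [le_div_iff₀ (by positivity)]
    nlinarith
  have hB0 : 0 < B := by rw [hB]; positivity
  set cf : ℕ → ℕ → ℝ := fun v w => n2 * V v / U w ^ l v w with hcf
  have hcf0 : ∀ v < n2, ∀ w < n1, 0 ≤ cf v w := by
    intro v hv w hw
    have h1 := hV v hv
    have h2 := hU w hw
    simp only [hcf]
    positivity
  -- one term
  have hterm : ∀ v < n2, ∀ w < n1, ENNReal.ofReal (cf v w) *
      ∫⁻ t : ℝ, ENNReal.ofReal (‖Mb ε η (yb P2 κ v) T t * Qb P1 κ₁ w t ^ l v w‖ ^ 2 *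
        Real.exp (-(a * h / T * |t|))) ≤
      ENNReal.ofReal (n2 * (C * B * τ) * F ^ 2) := by
    intro v hv w hw
    have hyw : P1 ≤ yb P1 κ₁ w := by
      unfold yb
      have : 1 ≤ Real.exp (κ₁ * w) := Real.one_le_exp (by positivity)
      nlinarith
    have hnext : yb P1 κ₁ (w + 1) = yb P1 κ₁ w * Real.exp κ₁ := by
      unfold yb
      rw [mul_assoc, ← Real.exp_add]
      congr 2
      push_cast
      ring
    have hyw3 : 3 ≤ yb P1 κ₁ w := hP1.trans hyw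
    have hW1 : Wq (yb P1 κ₁ w) (yb P1 κ₁ (w + 1)) ≤ 1 := by
      rw [hnext]
      exact Wq_block hyw3 hκ₁ hκ₁2
    have hlt : yb P1 κ₁ w < yb P1 κ₁ (w + 1) := by
      rw [hnext]
      have : 1 < Real.exp κ₁ := Real.one_lt_exp_iff.2 hκ₁
      nlinarith
    have hy1 : 1 ≤ yb P2 κ v := by
      unfold yb
      have : 1 ≤ Real.exp (κ * v) := Real.one_le_exp (by positivity)
      nlinarith
    have h1 := term_int hcm hC (k := l v w) ha hε hε1 hT hh hb hy1 (by linarith : 2 ≤ yb P1 κ₁ w)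
      hlt hW1 hF hff hB
    calc ENNReal.ofReal (cf v w) *
      ∫⁻ t : ℝ, ENNReal.ofReal (‖Mb ε η (yb P2 κ v) T t * Qb P1 κ₁ w t ^ l v w‖ ^ 2 *
        Real.exp (-(a * h / T * |t|)))
        ≤ ENNReal.ofReal (cf v w) * ENNReal.ofReal (C * F ^ 2 * (l v w + 1) *
          (B * ((4 * (l v w : ℝ) / yb P1 κ₁ w) ^ l v w * yb P2 κ v +
            (2 * (l v w : ℝ)) ^ l v w))) := by
          gcongr
          exact h1
      _ = ENNReal.ofReal (cf v w * (C * F ^ 2 * (l v w + 1) *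
          (B * ((4 * (l v w : ℝ) / yb P1 κ₁ w) ^ l v w * yb P2 κ v +
            (2 * (l v w : ℝ)) ^ l v w)))) := (ENNReal.ofReal_mul (hcf0 v hv w hw)).symm
      _ ≤ _ := by
          apply ENNReal.ofReal_le_ofReal
          have h3 : cf v w * (C * F ^ 2 * (l v w + 1) *
              (B * ((4 * (l v w : ℝ) / yb P1 κ₁ w) ^ l v w * yb P2 κ v +
                (2 * (l v w : ℝ)) ^ l v w))) =
              n2 * (C * B) * F ^ 2 * (V v / U w ^ l v w * ((l v w + 1) *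
                ((4 * (l v w : ℝ) / yb P1 κ₁ w) ^ l v w * yb P2 κ v +
                  (2 * (l v w : ℝ)) ^ l v w))) := by
            simp only [hcf]
            ring
          rw [h3]
          calc n2 * (C * B) * F ^ 2 * (V v / U w ^ l v w * ((l v w + 1) *
                ((4 * (l v w : ℝ) / yb P1 κ₁ w) ^ l v w * yb P2 κ v +
                  (2 * (l v w : ℝ)) ^ l v w)))
              ≤ n2 * (C * B) * F ^ 2 * τ :=
                mul_le_mul_of_nonneg_left (hτ v hv w hw) (by positivity)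
            _ = _ := by ring
  -- the sum
  have hm : ∀ v w : ℕ, Measurable (fun t : ℝ => ENNReal.ofReal (cf v w) *
      ENNReal.ofReal (‖Mb ε η (yb P2 κ v) T t * Qb P1 κ₁ w t ^ l v w‖ ^ 2 *
        Real.exp (-(a * h / T * |t|)))) := by
    intro v w
    have c1 := Mb_cont ε η (yb P2 κ v) T
    have c2 : Continuous (Qb P1 κ₁ w) := Qp_cont _ _
    have c3 : Continuous (fun t : ℝ => ‖Mb ε η (yb P2 κ v) T t *
        Qb P1 κ₁ w t ^ l v w‖ ^ 2 * Real.exp (-(a * h / T * |t|))) := by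
      fun_prop
    exact (measurable_const.mul (ENNReal.measurable_ofReal.comp c3.measurable))
  calc ∫⁻ t in {t : ℝ | (∃ w < n1, U w < ‖Qb P1 κ₁ w t‖ ^ 2) ∧
        ∀ v < n2, ‖Qb P2 κ v t‖ ^ 2 ≤ V v},
      ENNReal.ofReal (‖Fb ε η κ K P2 T t‖ ^ 2 * Real.exp (-(a * h / T * |t|)))
      ≤ ∫⁻ t in {t : ℝ | (∃ w < n1, U w < ‖Qb P1 κ₁ w t‖ ^ 2) ∧
        ∀ v < n2, ‖Qb P2 κ v t‖ ^ 2 ≤ V v},
        ∑ v ∈ Finset.range n2, ∑ w ∈ Finset.range n1, ENNReal.ofReal (cf v w) *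
          ENNReal.ofReal (‖Mb ε η (yb P2 κ v) T t * Qb P1 κ₁ w t ^ l v w‖ ^ 2 *
            Real.exp (-(a * h / T * |t|))) := by
        apply setLIntegral_mono
        · exact Finset.measurable_sum _ fun v _ => Finset.measurable_sum _ fun w _ => hm v w
        · intro t ht
          have hp := pointG (l := l) (M := fun v => Mb ε η (yb P2 κ v) T t) hW hU ht.1 ht.2
          have hE := Real.exp_pos (-(a * h / T * |t|))
          have e1 : ∑ v ∈ Finset.range n2, ∑ w ∈ Finset.range n1, ENNReal.ofReal (cf v w) *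
              ENNReal.ofReal (‖Mb ε η (yb P2 κ v) T t * Qb P1 κ₁ w t ^ l v w‖ ^ 2 *
                Real.exp (-(a * h / T * |t|))) =
              ENNReal.ofReal ((∑ v ∈ Finset.range n2, ∑ w ∈ Finset.range n1,
                cf v w * ‖Mb ε η (yb P2 κ v) T t * Qb P1 κ₁ w t ^ l v w‖ ^ 2) *
                Real.exp (-(a * h / T * |t|))) := by
            rw [Finset.sum_mul, ENNReal.ofReal_sum_of_nonneg (fun v hv =>
              mul_nonneg (Finset.sum_nonneg fun w hw => mul_nonneg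
                (hcf0 v (Finset.mem_range.1 hv) w (Finset.mem_range.1 hw)) (by positivity))
                hE.le)]
            apply Finset.sum_congr rfl
            intro v hv
            rw [Finset.sum_mul, ENNReal.ofReal_sum_of_nonneg (fun w hw =>
              mul_nonneg (mul_nonneg (hcf0 v (Finset.mem_range.1 hv) w (Finset.mem_range.1 hw))
                (by positivity)) hE.le)]
            apply Finset.sum_congr rfl
            intro w hw
            rw [mul_assoc, ENNReal.ofReal_mul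
              (hcf0 v (Finset.mem_range.1 hv) w (Finset.mem_range.1 hw))]
          rw [e1]
          apply ENNReal.ofReal_le_ofReal
          apply mul_le_mul_of_nonneg_right _ hE.le
          unfold Fb
          rw [← hn2]
          exact hp
    _ ≤ ∫⁻ t : ℝ, ∑ v ∈ Finset.range n2, ∑ w ∈ Finset.range n1, ENNReal.ofReal (cf v w) *
          ENNReal.ofReal (‖Mb ε η (yb P2 κ v) T t * Qb P1 κ₁ w t ^ l v w‖ ^ 2 *
            Real.exp (-(a * h / T * |t|))) := setLIntegral_le_lintegral _ _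
    _ = ∑ v ∈ Finset.range n2, ∑ w ∈ Finset.range n1, ENNReal.ofReal (cf v w) *
          ∫⁻ t : ℝ, ENNReal.ofReal (‖Mb ε η (yb P2 κ v) T t *
            Qb P1 κ₁ w t ^ l v w‖ ^ 2 * Real.exp (-(a * h / T * |t|))) := by
        rw [lintegral_finsetSum _ fun v _ => Finset.measurable_sum _ fun w _ => hm v w]
        apply Finset.sum_congr rfl
        intro v _
        rw [lintegral_finsetSum _ fun w _ => hm v w]
        apply Finset.sum_congr rfl
        intro w _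
        rw [lintegral_const_mul' _ _ ENNReal.ofReal_ne_top]
    _ ≤ ∑ _v ∈ Finset.range n2, ∑ _w ∈ Finset.range n1,
          ENNReal.ofReal (n2 * (C * B * τ) * F ^ 2) :=
        Finset.sum_le_sum fun v hv => Finset.sum_le_sum fun w hw =>
          hterm v (Finset.mem_range.1 hv) w (Finset.mem_range.1 hw)
    _ = ENNReal.ofReal ((n2 : ℝ) ^ 2 * n1 * (C * B * τ) * F ^ 2) := by
        rw [Finset.sum_const, Finset.sum_const, Finset.card_range, Finset.card_range,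
          nsmul_eq_mul, nsmul_eq_mul]
        have e1 : ((n2 : ℕ) : ℝ≥0∞) = ENNReal.ofReal n2 := (ENNReal.ofReal_natCast n2).symm
        have e2 : ((n1 : ℕ) : ℝ≥0∞) = ENNReal.ofReal n1 := (ENNReal.ofReal_natCast n1).symm
        rw [e1, e2, ← ENNReal.ofReal_mul (Nat.cast_nonneg _), ← ENNReal.ofReal_mul
          (Nat.cast_nonneg _)]
        congr 1
        ring

end Pool.Agent.Lib.MP_6bc78b_nt.GP.H66
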