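import Pool.Agent.Lib.MP_6bc78b_nt.H11.Contour

/-! GP7, row PRBX, part 1: the sums over the prime powers with a hat weight. -/

set_option autoImplicit false

open Complex Filter Topology MeasureTheory Set ArithmeticFunction

namespace Pool.Agent.Lib.MP_6bc78b_nt.GP.H66

open Pool.Agent.Lib.MP_6bc78b_nt.H11

/-- the hat function. -/
noncomputable def hat (y : ℝ) : ℂ :=
  (Ioc (0 : ℝ) 1).indicator (fun _ => (1 : ℂ)) y - (Ioc (0 : ℝ) 1).indicator (fun t : ℝ => (t : ℂ) ^ (1 : ℂ)) y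

lemma hat_mellin {s : ℂ} (hs : 0 < s.re) : HasMellin hat s (1 / (s * (s + 1))) := by
  have h1 := hasMellin_one_Ioc hs
  have h2 := hasMellin_cpow_Ioc (1 : ℂ) (s := s) (by simp; linarith)
  have h3 := hasMellin_sub h1.1 h2.1
  rw [h1.2, h2.2] at h3
  have hs0 : s ≠ 0 := by
    intro h; rw [h] at hs; simp at hs
  have hs1 : s + 1 ≠ 0 := by
    intro h
    have := congrArg Complex.re h
    simp at this; linarith
  have e : 1 / (s * (s + 1)) = 1 / s - 1 / (s + 1) := by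
    field_simp
    ring
  rw [e]
  exact h3

lemma hat_of_le {y : ℝ} (h0 : 0 < y) (h1 : y ≤ 1) : hat y = 1 - y := by
  unfold hat
  rw [indicator_of_mem (show y ∈ Ioc (0 : ℝ) 1 from ⟨h0, h1⟩),
    indicator_of_mem (show y ∈ Ioc (0 : ℝ) 1 from ⟨h0, h1⟩), cpow_one]

lemma hat_of_gt {y : ℝ} (h1 : 1 < y) : hat y = 0 := by
  unfold hat
  rw [indicator_of_notMem (show y ∉ Ioc (0 : ℝ) 1 from fun h => by linarith [h.2]),
    indicator_of_notMem (show y ∉ Ioc (0 : ℝ) 1 from fun h => by linarith [h.2]), sub_zero]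

lemma hat_eq_max {y : ℝ} (h0 : 0 < y) : hat y = ((max (1 - y) 0 : ℝ) : ℂ) := by
  rcases le_or_gt y 1 with h | h
  · rw [hat_of_le h0 h, max_eq_left (by linarith)]
    push_cast; rfl
  · rw [hat_of_gt h, max_eq_right (by linarith)]
    simp

/-- The vertical line. -/
noncomputable abbrev vl (σ v : ℝ) : ℂ := (σ : ℂ) + v * I

lemma vl_ne {σ : ℝ} (hσ : σ ≠ 0) (v : ℝ) : vl σ v ≠ 0 := by
  intro h
  have h1 := congrArg Complex.re h
  simp at h1
  exact hσ h1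

lemma vl_norm_sq (σ v : ℝ) : ‖vl σ v‖ ^ 2 = σ ^ 2 + v ^ 2 := by
  rw [← Complex.normSq_eq_norm_sq, Complex.normSq_apply]
  simp
  ring

/-- `1 / (w (w + 1))` on the line `Re w = 1/2`. -/
lemma ker_le (v : ℝ) : ‖(1 : ℂ) / (vl (1 / 2) v * (vl (1 / 2) v + 1))‖ ≤ 4 / (1 + v ^ 2) := by
  have h1 : (1 / 2 : ℝ) ^ 2 + v ^ 2 = ‖vl (1 / 2) v‖ ^ 2 := (vl_norm_sq _ _).symm
  have h2 : vl (1 / 2) v + 1 = vl (3 / 2) v := by
    unfold vl
    push_cast
    ring
  have h3 : (3 / 2 : ℝ) ^ 2 + v ^ 2 = ‖vl (3 / 2) v‖ ^ 2 := (vl_norm_sq _ _).symm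
  rw [h2, norm_div, norm_one, norm_mul]
  have h4 : ‖vl (1 / 2) v‖ ≤ ‖vl (3 / 2) v‖ := by
    refine le_of_sq_le_sq ?_ (norm_nonneg _)
    rw [← h1, ← h3]
    norm_num
  have h5 : 0 < ‖vl (1 / 2) v‖ := norm_pos_iff.2 (vl_ne (by norm_num) v)
  rw [div_le_div_iff₀ (mul_pos h5 (h5.trans_le h4)) (by positivity)]
  nlinarith

lemma ker_cont : Continuous fun v : ℝ => (1 : ℂ) / (vl (1 / 2) v * (vl (1 / 2) v + 1)) := by
  have h2 : ∀ v : ℝ, vl (1 / 2) v + 1 = vl (3 / 2) v := fun v => by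
    unfold vl
    push_cast
    ring
  refine Continuous.div continuous_const (by unfold vl; fun_prop) fun v => ?_
  rw [h2]
  exact mul_ne_zero (vl_ne (by norm_num) v) (vl_ne (by norm_num) v)

lemma ker_int : Integrable fun v : ℝ => (1 : ℂ) / (vl (1 / 2) v * (vl (1 / 2) v + 1)) := by
  refine Integrable.mono' (integrable_inv_one_add_sq.const_mul 4)
    ker_cont.aestronglyMeasurable (ae_of_all _ fun v => ?_)
  rw [← div_eq_mul_inv]
  exact ker_le v

lemma hat_cont {y : ℝ} (h0 : 0 < y) : ContinuousAt hat y := by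
  have h1 : (fun z : ℝ => ((max (1 - z) 0 : ℝ) : ℂ)) =ᶠ[𝓝 y] hat := by
    filter_upwards [lt_mem_nhds h0] with z hz
    rw [hat_eq_max hz]
  refine ContinuousAt.congr ?_ h1
  fun_prop

/-- Mellin inversion for the hat function. -/
lemma hat_inv {y : ℝ} (hy : 0 < y) : ((max (1 - y) 0 : ℝ) : ℂ) =
    (1 / (2 * Real.pi) : ℂ) * ∫ v : ℝ, (y : ℂ) ^ (-(vl (1 / 2) v)) *
      (1 / (vl (1 / 2) v * (vl (1 / 2) v + 1))) := by
  have h1 : ∀ v : ℝ, mellin hat (vl (1 / 2) v) = 1 / (vl (1 / 2) v * (vl (1 / 2) v + 1)) :=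
    fun v => (hat_mellin (s := vl (1 / 2) v) (by simp)).2
  have h2 : MellinConvergent hat ((1 / 2 : ℝ) : ℂ) :=
    (hat_mellin (s := ((1 / 2 : ℝ) : ℂ)) (by norm_num)).1
  have h3 := mellinInv_mellin_eq (1 / 2) hat hy h2 (by
    unfold VerticalIntegrable
    have h4 : (fun v : ℝ => mellin hat (((1 / 2 : ℝ) : ℂ) + v * I)) =
        fun v : ℝ => (1 : ℂ) / (vl (1 / 2) v * (vl (1 / 2) v + 1)) := funext h1
    rw [h4]
    exact ker_int) (hat_cont hy)
  rw [← hat_eq_max hy, ← h3]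
  unfold mellinInv
  rw [Complex.real_smul]
  congr 1
  · push_cast
    rfl
  · refine integral_congr_ae (ae_of_all _ fun v => ?_)
    show (y : ℂ) ^ (-(((1 / 2 : ℝ) : ℂ) + v * I)) • mellin hat (vl (1 / 2) v) = _
    rw [h1 v, smul_eq_mul]

/-- The hat function with the vertex `x`. -/
lemma hat_inv' {x u : ℝ} (hx : 0 < x) (hu : 0 < u) : ((max (x - u) 0 : ℝ) : ℂ) =
    (1 / (2 * Real.pi) : ℂ) * ∫ v : ℝ, (u : ℂ) ^ (-(vl (1 / 2) v)) *
      ((x : ℂ) ^ (vl (1 / 2) v + 1) * (1 / (vl (1 / 2) v * (vl (1 / 2) v + 1)))) := by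
  have h1 := hat_inv (div_pos hu hx)
  have h2 : max (x - u) 0 = x * max (1 - u / x) 0 := by
    rw [mul_max_of_nonneg _ _ hx.le, mul_zero, mul_sub, mul_one, mul_div_cancel₀ _ hx.ne']
  rw [h2, Complex.ofReal_mul, h1, mul_left_comm]
  congr 1
  rw [← integral_const_mul]
  refine integral_congr_ae (ae_of_all _ fun v => ?_)
  have hx' : (x : ℂ) ≠ 0 := Complex.ofReal_ne_zero.2 hx.ne'
  have key : ∀ w : ℂ, (x : ℂ) * (((u / x : ℝ) : ℂ) ^ (-w) * (1 / (w * (w + 1)))) =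
      (u : ℂ) ^ (-w) * ((x : ℂ) ^ (w + 1) * (1 / (w * (w + 1)))) := by
    intro w
    have h3 : ((u / x : ℝ) : ℂ) ^ (-w) = (u : ℂ) ^ (-w) * (x : ℂ) ^ w := by
      rw [div_eq_mul_inv, Complex.ofReal_mul, Complex.mul_cpow_ofReal_nonneg hu.le
        (inv_nonneg.2 hx.le), Complex.ofReal_inv, Complex.inv_cpow _ _ (by
        rw [Complex.arg_ofReal_of_nonneg hx.le]
        exact Real.pi_ne_zero.symm), Complex.cpow_neg (x : ℂ) w, inv_inv]
    rw [h3, Complex.cpow_add _ _ hx', Complex.cpow_one]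
    ring
  exact key (vl (1 / 2) v)

/-! ### The Dirichlet series -/

/-- The coefficients `Λ(n) log n`. -/
noncomputable def Ll (n : ℕ) : ℝ := vonMangoldt n * Real.log n

lemma Ll_nonneg (n : ℕ) : 0 ≤ Ll n :=
  mul_nonneg vonMangoldt_nonneg (Real.log_natCast_nonneg n)

/-- The derivative of `ζ'/ζ`. -/
noncomputable def Fz (s : ℂ) : ℂ := deriv (logDeriv riemannZeta) s

lemma Ll_logMul : (fun n => ((Ll n : ℝ) : ℂ)) = LSeries.logMul (fun n => (vonMangoldt n : ℂ)) := by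
  funext n
  unfold Ll LSeries.logMul
  rw [Complex.ofReal_mul, Complex.natCast_log, mul_comm]

lemma absc_vM : LSeries.abscissaOfAbsConv (fun n => (vonMangoldt n : ℂ)) ≤ 1 := by
  refine LSeries.abscissaOfAbsConv_le_of_forall_lt_LSeriesSummable' fun y hy => ?_
  exact ArithmeticFunction.LSeriesSummable_vonMangoldt (by
    rw [Complex.ofReal_re]
    exact_mod_cast hy)

lemma Ll_summable {s : ℂ} (hs : 1 < s.re) : LSeriesSummable (fun n => ((Ll n : ℝ) : ℂ)) s := by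
  rw [Ll_logMul]
  refine LSeriesSummable_logMul_of_lt_re (absc_vM.trans_lt ?_)
  exact_mod_cast hs

lemma Ll_LSeries {s : ℂ} (hs : 1 < s.re) : LSeries (fun n => ((Ll n : ℝ) : ℂ)) s = Fz s := by
  have h1 : deriv (LSeries fun n => (vonMangoldt n : ℂ)) s =
      -LSeries (LSeries.logMul fun n => (vonMangoldt n : ℂ)) s :=
    LSeries_deriv (absc_vM.trans_lt (by exact_mod_cast hs))
  have h2 : (LSeries fun n => (vonMangoldt n : ℂ)) =ᶠ[𝓝 s] fun z => -logDeriv riemannZeta z := by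
    have h3 : {z : ℂ | 1 < z.re} ∈ 𝓝 s :=
      (isOpen_lt continuous_const Complex.continuous_re).mem_nhds hs
    filter_upwards [h3] with z hz
    rw [ArithmeticFunction.LSeries_vonMangoldt_eq_deriv_riemannZeta_div hz, logDeriv_apply,
      neg_div]
  rw [h2.deriv_eq] at h1
  have h4 : deriv (fun z => -logDeriv riemannZeta z) s = -Fz s := by
    rw [show (fun z => -logDeriv riemannZeta z) = -(logDeriv riemannZeta) from rfl, deriv.neg]
    rfl
  rw [h4, neg_inj] at h1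
  rw [Ll_logMul, h1]

end Pool.Agent.Lib.MP_6bc78b_nt.GP.H66
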