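import Pool.Agent.Lib.MP_6bc78b_nt.GP.H66.Prb1

/-! GP7, row PRBX, part 2: the sum over `n` as an integral. -/

set_option autoImplicit false

open Complex Filter Topology MeasureTheory Set ArithmeticFunction

namespace Pool.Agent.Lib.MP_6bc78b_nt.GP.H66

open Pool.Agent.Lib.MP_6bc78b_nt.H11

lemma Ll_zero : Ll 0 = 0 := by
  unfold Ll
  simp

lemma vl_re (σ v : ℝ) : (vl σ v).re = σ := by simp

lemma vl_im (σ v : ℝ) : (vl σ v).im = v := by simp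

lemma cpow_cont {u : ℝ} (hu : 0 < u) (σ : ℝ) : Continuous fun v : ℝ => (u : ℂ) ^ (-(vl σ v)) := by
  have hu' : (u : ℂ) ≠ 0 := Complex.ofReal_ne_zero.2 hu.ne'
  refine Continuous.const_cpow (by unfold vl; fun_prop) (Or.inl hu')

lemma cpow_norm {u : ℝ} (hu : 0 < u) (w : ℂ) : ‖(u : ℂ) ^ w‖ = u ^ w.re :=
  Complex.norm_cpow_eq_rpow_re_of_pos hu w

/-- The sum under the integral sign. -/
lemma sum_int (Φ : ℝ → ℂ) (hΦ : Integrable Φ) (t : ℝ) :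
    HasSum (fun n : ℕ => (Ll n : ℂ) * (n : ℂ) ^ (-(1 + t * I : ℂ)) *
      ∫ v : ℝ, (n : ℂ) ^ (-(vl (1 / 2) v)) * Φ v)
      (∫ v : ℝ, Fz (vl (3 / 2) (t + v)) * Φ v) := by
  have hs : (1 : ℝ) < (vl (3 / 2) 0).re := by rw [vl_re]; norm_num
  -- the terms
  let F : ℕ → ℝ → ℂ := fun n v =>
    LSeries.term (fun n => ((Ll n : ℝ) : ℂ)) (vl (3 / 2) (t + v)) n * Φ v
  have e1 : ∀ (n : ℕ) (v : ℝ), F n v = (Ll n : ℂ) * (n : ℂ) ^ (-(1 + t * I : ℂ)) *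
      ((n : ℂ) ^ (-(vl (1 / 2) v)) * Φ v) := by
    intro n v
    rcases Nat.eq_zero_or_pos n with rfl | hn
    · show LSeries.term _ _ 0 * Φ v = _
      rw [LSeries.term_zero, Ll_zero]
      simp
    · show LSeries.term _ _ n * Φ v = _
      have hn0 : (n : ℂ) ≠ 0 := Nat.cast_ne_zero.2 hn.ne'
      rw [LSeries.term_of_ne_zero hn.ne', div_eq_mul_inv, ← Complex.cpow_neg]
      have e2 : -(vl (3 / 2) (t + v)) = -(1 + t * I : ℂ) + -(vl (1 / 2) v) := by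
        unfold vl
        push_cast
        ring
      rw [e2, Complex.cpow_add _ _ hn0]
      ring
  have e3 : ∀ (n : ℕ) (v : ℝ), ‖F n v‖ =
      ‖LSeries.term (fun n => ((Ll n : ℝ) : ℂ)) (vl (3 / 2) 0) n‖ * ‖Φ v‖ := by
    intro n v
    show ‖LSeries.term _ _ n * Φ v‖ = _
    rw [norm_mul, LSeries.norm_term_eq, LSeries.norm_term_eq, vl_re, vl_re]
  have hint : ∀ n, Integrable (F n) := by
    intro n
    rcases Nat.eq_zero_or_pos n with rfl | hn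
    · have : F 0 = fun _ => 0 := by
        funext v
        rw [e1, Ll_zero]
        simp
      rw [this]
      exact integrable_zero _ _ _
    · have hn0 : (0 : ℝ) < n := Nat.cast_pos.2 hn
      have h1 : AEStronglyMeasurable (F n) := by
        have h2 : F n = fun v => (Ll n : ℂ) * (n : ℂ) ^ (-(1 + t * I : ℂ)) *
            ((n : ℂ) ^ (-(vl (1 / 2) v)) * Φ v) := funext (e1 n)
        rw [h2]
        refine AEStronglyMeasurable.const_mul ?_ _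
        have h3 := cpow_cont hn0 (1 / 2)
        rw [Complex.ofReal_natCast] at h3
        exact h3.aestronglyMeasurable.mul hΦ.1
      refine Integrable.mono' (hΦ.norm.const_mul
        ‖LSeries.term (fun n => ((Ll n : ℝ) : ℂ)) (vl (3 / 2) 0) n‖) h1 (ae_of_all _ fun v => ?_)
      rw [e3]
  have hsum : Summable fun n => ∫ v, ‖F n v‖ := by
    have h1 : (fun n => ∫ v, ‖F n v‖) = fun n =>
        ‖LSeries.term (fun n => ((Ll n : ℝ) : ℂ)) (vl (3 / 2) 0) n‖ * ∫ v, ‖Φ v‖ := by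
      funext n
      rw [← integral_const_mul]
      exact integral_congr_ae (ae_of_all _ fun v => e3 n v)
    rw [h1]
    exact (Ll_summable hs).norm.mul_right _
  have h1 := hasSum_integral_of_summable_integral_norm hint hsum
  have h2 : (fun n => ∫ v, F n v) = fun n : ℕ => (Ll n : ℂ) * (n : ℂ) ^ (-(1 + t * I : ℂ)) *
      ∫ v : ℝ, (n : ℂ) ^ (-(vl (1 / 2) v)) * Φ v := by
    funext n
    rw [← integral_const_mul]
    exact integral_congr_ae (ae_of_all _ fun v => e1 n v)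
  have h3 : (∫ v, ∑' n, F n v) = ∫ v : ℝ, Fz (vl (3 / 2) (t + v)) * Φ v := by
    refine integral_congr_ae (ae_of_all _ fun v => ?_)
    show ∑' n, LSeries.term _ _ n * Φ v = _
    rw [tsum_mul_right]
    congr 1
    exact Ll_LSeries (s := vl (3 / 2) (t + v)) (by rw [vl_re]; norm_num)
  rw [h2, h3] at h1
  exact h1

section nodes

variable (x₀ x₁ x₂ : ℝ)

/-- The difference quotients. -/
noncomputable def Gq (w : ℂ) : ℂ :=
  ((x₂ : ℂ) ^ (w + 1) - (x₁ : ℂ) ^ (w + 1)) / ((x₂ - x₁ : ℝ) : ℂ) -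
    ((x₁ : ℂ) ^ (w + 1) - (x₀ : ℂ) ^ (w + 1)) / ((x₁ - x₀ : ℝ) : ℂ)

/-- The hat function. -/
noncomputable def hq (u : ℝ) : ℝ :=
  (max (x₂ - u) 0 - max (x₁ - u) 0) / (x₂ - x₁) - (max (x₁ - u) 0 - max (x₀ - u) 0) / (x₁ - x₀)

/-- The kernel. -/
noncomputable def kq (w : ℂ) : ℂ := 1 / (w * (w + 1))

variable {x₀ x₁ x₂} (h0 : 0 < x₀) (h01 : x₀ < x₁) (h12 : x₁ < x₂)

include h0 h01 h12

lemma Gq_norm (w : ℂ) (hw : 0 ≤ w.re + 1) : ‖Gq x₀ x₁ x₂ w‖ ≤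
    2 * x₂ ^ (w.re + 1) / (x₂ - x₁) + 2 * x₂ ^ (w.re + 1) / (x₁ - x₀) := by
  have hn : ∀ x : ℝ, 0 < x → x ≤ x₂ → ‖(x : ℂ) ^ (w + 1)‖ ≤ x₂ ^ (w.re + 1) := by
    intro x hx hx2
    rw [cpow_norm hx, Complex.add_re, Complex.one_re]
    exact Real.rpow_le_rpow hx.le hx2 hw
  have a0 := hn x₀ h0 (h01.trans h12).le
  have a1 := hn x₁ (h0.trans h01) h12.le
  have a2 := hn x₂ ((h0.trans h01).trans h12) le_rfl
  have d1 : 0 < x₂ - x₁ := sub_pos.2 h12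
  have d0 : 0 < x₁ - x₀ := sub_pos.2 h01
  unfold Gq
  refine (norm_sub_le _ _).trans (add_le_add ?_ ?_)
  · rw [norm_div, Complex.norm_real, Real.norm_eq_abs, abs_of_pos d1]
    refine div_le_div_of_nonneg_right ?_ d1.le
    refine (norm_sub_le _ _).trans ?_
    linarith
  · rw [norm_div, Complex.norm_real, Real.norm_eq_abs, abs_of_pos d0]
    refine div_le_div_of_nonneg_right ?_ d0.le
    refine (norm_sub_le _ _).trans ?_
    linarith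

lemma Gq_diff : Differentiable ℂ (Gq x₀ x₁ x₂) := by
  have hx : ∀ x : ℝ, 0 < x → Differentiable ℂ fun w : ℂ => (x : ℂ) ^ (w + 1) := by
    intro x hx w
    have hx' : (x : ℂ) ≠ 0 := Complex.ofReal_ne_zero.2 hx.ne'
    exact DifferentiableAt.const_cpow (by fun_prop) (Or.inl hx')
  have a0 := hx x₀ h0
  have a1 := hx x₁ (h0.trans h01)
  have a2 := hx x₂ ((h0.trans h01).trans h12)
  unfold Gq
  exact ((a2.sub a1).div_const _).sub ((a1.sub a0).div_const _)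

lemma Gq_zero : Gq x₀ x₁ x₂ 0 = 0 := by
  have d1 : ((x₂ - x₁ : ℝ) : ℂ) ≠ 0 := Complex.ofReal_ne_zero.2 (sub_pos.2 h12).ne'
  have d0 : ((x₁ - x₀ : ℝ) : ℂ) ≠ 0 := Complex.ofReal_ne_zero.2 (sub_pos.2 h01).ne'
  unfold Gq
  rw [zero_add, Complex.cpow_one, Complex.cpow_one, Complex.cpow_one, ← Complex.ofReal_sub,
    ← Complex.ofReal_sub, div_self d1, div_self d0, sub_self]

lemma Gk_int : Integrable fun v : ℝ => Gq x₀ x₁ x₂ (vl (1 / 2) v) * kq (vl (1 / 2) v) := by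
  have hc : Continuous fun v : ℝ => Gq x₀ x₁ x₂ (vl (1 / 2) v) * kq (vl (1 / 2) v) := by
    refine Continuous.mul ((Gq_diff h0 h01 h12).continuous.comp (by unfold vl; fun_prop)) ?_
    exact ker_cont
  refine Integrable.mono' (ker_int.norm.const_mul (2 * x₂ ^ ((1 / 2 : ℝ) + 1) / (x₂ - x₁) +
    2 * x₂ ^ ((1 / 2 : ℝ) + 1) / (x₁ - x₀))) hc.aestronglyMeasurable (ae_of_all _ fun v => ?_)
  rw [norm_mul]
  have h1 := Gq_norm h0 h01 h12 (vl (1 / 2) v) (by rw [vl_re]; norm_num)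
  rw [vl_re] at h1
  exact mul_le_mul_of_nonneg_right h1 (norm_nonneg _)

/-- The hat function as an integral. -/
lemma hq_inv {u : ℝ} (hu : 0 < u) : ((hq x₀ x₁ x₂ u : ℝ) : ℂ) =
    (1 / (2 * Real.pi) : ℂ) * ∫ v : ℝ, (u : ℂ) ^ (-(vl (1 / 2) v)) *
      (Gq x₀ x₁ x₂ (vl (1 / 2) v) * kq (vl (1 / 2) v)) := by
  let f : ℝ → ℝ → ℂ := fun x v => (u : ℂ) ^ (-(vl (1 / 2) v)) *
      ((x : ℂ) ^ (vl (1 / 2) v + 1) * (1 / (vl (1 / 2) v * (vl (1 / 2) v + 1))))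
  have hi : ∀ x : ℝ, 0 < x → Integrable fun v : ℝ => f x v := by
    intro x hx
    have hx' : (x : ℂ) ≠ 0 := Complex.ofReal_ne_zero.2 hx.ne'
    have hc1 : Continuous fun v : ℝ => (x : ℂ) ^ (vl (1 / 2) v + 1) :=
      Continuous.const_cpow (by unfold vl; fun_prop) (Or.inl hx')
    refine Integrable.mono' (ker_int.norm.const_mul (u ^ (-(1 / 2) : ℝ) * x ^ ((1 / 2 : ℝ) + 1)))
      ((cpow_cont hu (1 / 2)).mul (hc1.mul ker_cont)).aestronglyMeasurable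
      (ae_of_all _ fun v => le_of_eq ?_)
    have e1 : (vl (1 / 2) v + 1).re = 1 / 2 + 1 := by rw [Complex.add_re, Complex.one_re, vl_re]
    have e2 : (-(vl (1 / 2) v)).re = -(1 / 2) := by rw [Complex.neg_re, vl_re]
    show ‖(u : ℂ) ^ (-(vl (1 / 2) v)) * ((x : ℂ) ^ (vl (1 / 2) v + 1) *
      (1 / (vl (1 / 2) v * (vl (1 / 2) v + 1))))‖ = _
    rw [norm_mul, norm_mul, cpow_norm hu, cpow_norm hx, e1, e2]
    ring
  have i0 := hi x₀ h0
  have i1 := hi x₁ (h0.trans h01)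
  have i2 := hi x₂ ((h0.trans h01).trans h12)
  have i21 : Integrable fun v => (f x₂ v - f x₁ v) / ((x₂ - x₁ : ℝ) : ℂ) :=
    (i2.sub i1).div_const _
  have i10 : Integrable fun v => (f x₁ v - f x₀ v) / ((x₁ - x₀ : ℝ) : ℂ) :=
    (i1.sub i0).div_const _
  have key : (∫ v : ℝ, (u : ℂ) ^ (-(vl (1 / 2) v)) *
      (Gq x₀ x₁ x₂ (vl (1 / 2) v) * kq (vl (1 / 2) v))) =
      ((∫ v, f x₂ v) - ∫ v, f x₁ v) / ((x₂ - x₁ : ℝ) : ℂ) -
      ((∫ v, f x₁ v) - ∫ v, f x₀ v) / ((x₁ - x₀ : ℝ) : ℂ) := by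
    rw [← integral_sub i2 i1, ← integral_sub i1 i0, ← integral_div, ← integral_div,
      ← integral_sub i21 i10]
    refine integral_congr_ae (ae_of_all _ fun v => ?_)
    show (u : ℂ) ^ (-(vl (1 / 2) v)) * (Gq x₀ x₁ x₂ (vl (1 / 2) v) * kq (vl (1 / 2) v)) =
      ((u : ℂ) ^ (-(vl (1 / 2) v)) *
      ((x₂ : ℂ) ^ (vl (1 / 2) v + 1) * (1 / (vl (1 / 2) v * (vl (1 / 2) v + 1)))) -
        (u : ℂ) ^ (-(vl (1 / 2) v)) *
      ((x₁ : ℂ) ^ (vl (1 / 2) v + 1) * (1 / (vl (1 / 2) v * (vl (1 / 2) v + 1))))) /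
          ((x₂ - x₁ : ℝ) : ℂ) -
      ((u : ℂ) ^ (-(vl (1 / 2) v)) *
      ((x₁ : ℂ) ^ (vl (1 / 2) v + 1) * (1 / (vl (1 / 2) v * (vl (1 / 2) v + 1)))) -
        (u : ℂ) ^ (-(vl (1 / 2) v)) *
      ((x₀ : ℂ) ^ (vl (1 / 2) v + 1) * (1 / (vl (1 / 2) v * (vl (1 / 2) v + 1))))) /
          ((x₁ - x₀ : ℝ) : ℂ)
    unfold Gq kq
    ring
  have j : ∀ x : ℝ, 0 < x → ((max (x - u) 0 : ℝ) : ℂ) =
      (1 / (2 * Real.pi) : ℂ) * ∫ v : ℝ, f x v := fun x hx => hat_inv' hx hu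
  rw [key]
  unfold hq
  rw [Complex.ofReal_sub, Complex.ofReal_div, Complex.ofReal_div, Complex.ofReal_sub (max _ _),
    Complex.ofReal_sub (max _ _), j x₂ ((h0.trans h01).trans h12), j x₁ (h0.trans h01), j x₀ h0]
  ring

/-- The sum with the hat weight. -/
lemma hq_sum (t : ℝ) : HasSum (fun n : ℕ => (Ll n : ℂ) * (n : ℂ) ^ (-(1 + t * I : ℂ)) *
      ((hq x₀ x₁ x₂ n : ℝ) : ℂ))
      ((1 / (2 * Real.pi) : ℂ) * ∫ v : ℝ, Fz (vl (3 / 2) (t + v)) *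
        (Gq x₀ x₁ x₂ (vl (1 / 2) v) * kq (vl (1 / 2) v))) := by
  have h1 := (sum_int _ (Gk_int h0 h01 h12) t).mul_left (1 / (2 * Real.pi) : ℂ)
  have h2 : (fun n : ℕ => (Ll n : ℂ) * (n : ℂ) ^ (-(1 + t * I : ℂ)) *
      ((hq x₀ x₁ x₂ n : ℝ) : ℂ)) = fun n : ℕ => (1 / (2 * Real.pi) : ℂ) *
      ((Ll n : ℂ) * (n : ℂ) ^ (-(1 + t * I : ℂ)) *
      ∫ v : ℝ, (n : ℂ) ^ (-(vl (1 / 2) v)) *
        (Gq x₀ x₁ x₂ (vl (1 / 2) v) * kq (vl (1 / 2) v))) := by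
    funext n
    rcases Nat.eq_zero_or_pos n with rfl | hn
    · rw [Ll_zero]
      simp
    · have h3 := hq_inv h0 h01 h12 (u := (n : ℝ)) (Nat.cast_pos.2 hn)
      rw [Complex.ofReal_natCast] at h3
      rw [h3]
      ring
  rw [h2]
  exact h1

end nodes

end Pool.Agent.Lib.MP_6bc78b_nt.GP.H66
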