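import Pool.Agent.Lib.MP_6bc78b_nt.GP.H66.Prb2
import Pool.Agent.Lib.MP_6bc78b_nt.GP.H79.RHB

/-! GP7, row PRBX, part 3: the derivative of `ζ'/ζ` under RH. -/

set_option autoImplicit false

open Complex Filter Topology MeasureTheory Set ArithmeticFunction Metric

namespace Pool.Agent.Lib.MP_6bc78b_nt.GP.H66

open Pool.Agent.Lib.MP_6bc78b_nt.H11

/-- The derivative of the logarithmic derivative of `(s - 1) ζ(s)`. -/
noncomputable def Hz (s : ℂ) : ℂ := deriv (logDeriv riemannZeta₁) s

lemma lz_diff (hRH : RiemannHypothesis) : DifferentiableOn ℂ (logDeriv riemannZeta₁) OM := by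
  intro s hs
  have h1 : DifferentiableAt ℂ (deriv riemannZeta₁) s :=
    (differentiable_riemannZeta₁.differentiableOn.deriv isOpen_univ).differentiableAt
      (IsOpen.mem_nhds isOpen_univ (mem_univ s))
  exact (h1.div (differentiable_riemannZeta₁ s) (zeta1_ne_zero hRH hs)).differentiableWithinAt

lemma Hz_diff (hRH : RiemannHypothesis) : DifferentiableOn ℂ Hz OM :=
  (lz_diff hRH).deriv OM_open

lemma lz_eq (hRH : RiemannHypothesis) {s : ℂ} (hs : s ∈ OM) (h1 : s ≠ 1) :
    logDeriv riemannZeta₁ s = logDeriv riemannZeta s + (s - 1)⁻¹ := by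
  have h2 : riemannZeta₁ =ᶠ[𝓝 s] fun z => (z - 1) * riemannZeta z := by
    filter_upwards [isOpen_compl_singleton.mem_nhds h1] with z hz
    exact zeta1_eq hz
  have h3 : logDeriv riemannZeta₁ s = logDeriv (fun z => (z - 1) * riemannZeta z) s := by
    rw [logDeriv_apply, logDeriv_apply, h2.deriv_eq, h2.eq_of_nhds]
  have h4 : logDeriv (fun z : ℂ => z - 1) s = (s - 1)⁻¹ := by
    rw [logDeriv_apply, deriv_sub_const, deriv_id'', one_div]
  rw [h3, logDeriv_mul (f := fun z => z - 1) (g := riemannZeta) s (sub_ne_zero.2 h1)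
    (zeta_ne_zero_of_RH hRH hs) (by fun_prop) (differentiableAt_riemannZeta h1), h4, add_comm]

lemma Hz_eq (hRH : RiemannHypothesis) {s : ℂ} (hs : s ∈ OM) (h1 : s ≠ 1) :
    Fz s = Hz s + ((s - 1) ^ 2)⁻¹ := by
  have h2 : logDeriv riemannZeta₁ =ᶠ[𝓝 s] fun z => logDeriv riemannZeta z + (z - 1)⁻¹ := by
    filter_upwards [isOpen_compl_singleton.mem_nhds h1, OM_open.mem_nhds hs] with z hz hz'
    exact lz_eq hRH hz' hz
  have h3 : DifferentiableAt ℂ (logDeriv riemannZeta) s := by
    have h4 : logDeriv riemannZeta =ᶠ[𝓝 s] fun z => logDeriv riemannZeta₁ z - (z - 1)⁻¹ := by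
      filter_upwards [h2] with z hz
      rw [hz]
      ring
    have h5 : DifferentiableAt ℂ (fun z : ℂ => (z - 1)⁻¹) s :=
      DifferentiableAt.inv (by fun_prop) (sub_ne_zero.2 h1)
    exact (((lz_diff hRH).differentiableAt (OM_open.mem_nhds hs)).sub h5).congr_of_eventuallyEq h4
  have h5 : HasDerivAt (fun z : ℂ => (z - 1)⁻¹) (-1 / (s - 1) ^ 2) s := by
    have h6 : HasDerivAt (fun z : ℂ => z - 1) 1 s := (hasDerivAt_id s).sub_const 1
    exact h6.inv (sub_ne_zero.2 h1)
  unfold Hz Fz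
  rw [h2.deriv_eq, deriv_fun_add h3 h5.differentiableAt, h5.deriv]
  ring

/-- The logarithmic derivative on the left. -/
lemma lz_le (hRH : RiemannHypothesis) : ∃ C : ℝ, 0 < C ∧ ∀ s : ℂ, 1 / 2 < s.re → s.re ≤ 3 / 4 →
    ‖logDeriv riemannZeta₁ s‖ ≤ C * Real.log (3 + |s.im|) / (s.re - 1 / 2) := by
  obtain ⟨C, hC, h⟩ := H79.rhb hRH
  refine ⟨C + 1, by positivity, fun s h1 h2 => ?_⟩
  have hs1 : s ≠ 1 := by
    rintro rfl
    norm_num at h2
  have h3 := h s.re s.im h1 h2
  rw [Complex.re_add_im] at h3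
  have h4 : 1 ≤ Real.log (3 + |s.im|) := by
    rw [Real.le_log_iff_exp_le (by positivity)]
    exact Real.exp_one_lt_d9.le.trans (by have := abs_nonneg s.im; linarith)
  have h5 : ‖(s - 1)⁻¹‖ ≤ Real.log (3 + |s.im|) / (s.re - 1 / 2) := by
    have h6 : 1 / 4 ≤ ‖s - 1‖ := by
      have h7 := Complex.abs_re_le_norm (s - 1)
      rw [Complex.sub_re, Complex.one_re, abs_of_nonpos (by linarith)] at h7
      linarith
    rw [norm_inv]
    have h8 : ‖s - 1‖⁻¹ ≤ 4 := by
      rw [inv_le_comm₀ (by linarith) (by norm_num)]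
      linarith
    refine h8.trans ?_
    rw [le_div_iff₀ (by linarith)]
    nlinarith
  rw [lz_eq hRH h1 hs1]
  refine (norm_add_le _ _).trans ?_
  have e : (C + 1) * Real.log (3 + |s.im|) / (s.re - 1 / 2) =
      C * Real.log (3 + |s.im|) / (s.re - 1 / 2) + Real.log (3 + |s.im|) / (s.re - 1 / 2) := by
    ring
  rw [e]
  exact add_le_add h3 h5

lemma lz_dcc (hRH : RiemannHypothesis) {s : ℂ} {R : ℝ} (hR : 1 / 2 < s.re - R) :
    DiffContOnCl ℂ (logDeriv riemannZeta₁) (ball s R) := by
  refine DifferentiableOn.diffContOnCl ((lz_diff hRH).mono ?_)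
  refine (closure_ball_subset_closedBall).trans fun z hz => ?_
  have h1 := Complex.abs_re_le_norm (z - s)
  rw [mem_closedBall, dist_eq_norm] at hz
  rw [Complex.sub_re] at h1
  have h2 := (abs_le.1 (h1.trans hz)).1
  show 1 / 2 < z.re
  linarith

lemma sphere_re {s z : ℂ} {R : ℝ} (hz : z ∈ sphere s R) : |z.re - s.re| ≤ R ∧
    |z.im - s.im| ≤ R := by
  rw [mem_sphere, dist_eq_norm] at hz
  have h1 := Complex.abs_re_le_norm (z - s)
  have h2 := Complex.abs_im_le_norm (z - s)
  rw [Complex.sub_re] at h1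
  rw [Complex.sub_im] at h2
  exact ⟨h1.trans hz.le, h2.trans hz.le⟩

/-- The derivative on the line `Re s = 1/2 + δ`. -/
lemma Hz_le (hRH : RiemannHypothesis) : ∃ C : ℝ, 0 < C ∧ ∀ δ y : ℝ, 0 < δ → δ ≤ 1 / 8 →
    ‖Hz (vl (1 / 2 + δ) y)‖ ≤ C * Real.log (3 + |y|) / δ ^ 2 := by
  obtain ⟨C, hC, h⟩ := lz_le hRH
  refine ⟨8 * C, by positivity, fun δ y h1 h2 => ?_⟩
  have h3 := Complex.norm_deriv_le_of_forall_mem_sphere_norm_le (c := vl (1 / 2 + δ) y)
    (R := δ / 2) (C := C * (2 * Real.log (3 + |y|)) / (δ / 2)) (by positivity)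
    (lz_dcc hRH (by rw [vl_re]; linarith)) fun z hz => by
      obtain ⟨a1, a2⟩ := sphere_re hz
      rw [vl_re] at a1
      rw [vl_im] at a2
      have b1 := (abs_le.1 a1).1
      have b2 := (abs_le.1 a1).2
      refine (h z (by linarith) (by linarith)).trans ?_
      have h4 : |z.im| ≤ |y| + 1 := by
        have h5 : |z.im| ≤ |z.im - y| + |y| := by
          have := abs_add_le (z.im - y) y
          rwa [sub_add_cancel] at this
        linarith
      have hy := abs_nonneg y
      have h5 : Real.log (3 + |z.im|) ≤ 2 * Real.log (3 + |y|) := by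
        have h6 : Real.log (3 + |z.im|) ≤ Real.log ((3 + |y|) ^ 2) :=
          Real.log_le_log (by positivity) (by nlinarith)
        rwa [Real.log_pow, Nat.cast_ofNat] at h6
      have h6 : 0 ≤ Real.log (3 + |y|) := Real.log_nonneg (by linarith)
      exact div_le_div₀ (by positivity) (mul_le_mul_of_nonneg_left h5 hC.le) (by positivity)
        (by linarith)
  refine h3.trans (le_of_eq ?_)
  field_simp
  ring

/-- The growth in a strip. -/
lemma Hz_growth (hRH : RiemannHypothesis) {δ : ℝ} (hδ : 0 < δ) (hδ1 : δ ≤ 1) :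
    ∃ C : ℝ, 0 < C ∧ ∀ s : ℂ, 1 / 2 + δ ≤ s.re → s.re ≤ 2 → 4 ≤ |s.im| →
      ‖Hz s‖ ≤ C * |s.im| ^ (1 / 2 : ℝ) := by
  have hKZ : 0 < KZ := by unfold KZ; norm_num
  set c : ℝ := Real.exp 1 * (2 * KZ / (δ / 2)) with hc
  have hc0 : 0 < c := by positivity
  refine ⟨(c * 4 + 1) / (δ / 2), by positivity, fun s h1 h2 h3 => ?_⟩
  have h4 := Complex.norm_deriv_le_of_forall_mem_sphere_norm_le (c := s)
    (R := δ / 2) (C := (c * 4 + 1) * |s.im| ^ (1 / 2 : ℝ)) (by positivity)
    (lz_dcc hRH (by linarith)) fun z hz => by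
      obtain ⟨a1, a2⟩ := sphere_re hz
      have b1 := (abs_le.1 a1).1
      have b2 := (abs_le.1 a1).2
      have h5 : |z.im| ≤ |s.im| + 1 := by
        have h5 : |z.im| ≤ |z.im - s.im| + |s.im| := by
          have := abs_add_le (z.im - s.im) s.im
          rwa [sub_add_cancel] at this
        linarith
      have h6 : |s.im| - 1 ≤ |z.im| := by
        have h5 : |s.im| ≤ |s.im - z.im| + |z.im| := by
          have := abs_add_le (s.im - z.im) z.im
          rwa [sub_add_cancel] at this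
        rw [abs_sub_comm] at h5
        linarith
      have hz1 : z ≠ 1 := by
        rintro rfl
        rw [Complex.one_im, abs_zero] at h6
        linarith
      have hzO : z ∈ OM := by
        show 1 / 2 < z.re
        linarith
      rw [lz_eq hRH hzO hz1]
      have h7 := DZ_pointwise hRH 1 (s := z) (δ := δ / 2) (by positivity) (by linarith)
        (by linarith) (by linarith) (by linarith)
      have e : DZ 1 z = logDeriv riemannZeta z := by
        unfold DZ
        rw [iteratedDeriv_one, logDeriv_apply]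
      rw [e, pow_one, Nat.factorial_one, Nat.cast_one, mul_one] at h7
      have h8 : ‖(z - 1)⁻¹‖ ≤ 1 := by
        have h9 := Complex.abs_im_le_norm (z - 1)
        rw [Complex.sub_im, Complex.one_im, sub_zero] at h9
        rw [norm_inv]
        exact inv_le_one_of_one_le₀ (by linarith)
      have h10 : Real.log |z.im| ≤ 4 * |s.im| ^ (1 / 2 : ℝ) := by
        have h11 : Real.log |z.im| ≤ Real.log (|s.im| ^ 2) :=
          Real.log_le_log (by linarith) (by nlinarith)
        rw [Real.log_pow, Nat.cast_ofNat] at h11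
        have h12 := Real.log_le_rpow_div (x := |s.im|) (by linarith) (ε := 1 / 2) (by norm_num)
        linarith
      have h13 : 1 ≤ |s.im| ^ (1 / 2 : ℝ) := Real.one_le_rpow (by linarith) (by norm_num)
      refine (norm_add_le _ _).trans ?_
      have h14 : Real.exp 1 * (2 * KZ * Real.log |z.im| / (δ / 2)) = c * Real.log |z.im| := by
        rw [hc]
        ring
      rw [h14] at h7
      nlinarith
  refine h4.trans (le_of_eq ?_)
  ring

end Pool.Agent.Lib.MP_6bc78b_nt.GP.H66
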