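import Pool.Agent.Lib.MP_6bc78b_nt.GP.H66.Prb3
import Pool.Agent.Lib.MP_6bc78b_nt.H11.Contour

/-! GP7, row PRBX, part 4: the contour shift. -/

set_option autoImplicit false

open Complex Filter Topology MeasureTheory Set ArithmeticFunction Metric

namespace Pool.Agent.Lib.MP_6bc78b_nt.GP.H66

open Pool.Agent.Lib.MP_6bc78b_nt.H11

/-- The bound for the difference quotients. -/
noncomputable def Mq (x₀ x₁ x₂ e : ℝ) : ℝ := 2 * x₂ ^ e / (x₂ - x₁) + 2 * x₂ ^ e / (x₁ - x₀)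

section nodes

variable {x₀ x₁ x₂ : ℝ} (h0 : 1 ≤ x₀) (h01 : x₀ < x₁) (h12 : x₁ < x₂)

include h0 h01 h12

lemma Mq_nonneg (e : ℝ) : 0 ≤ Mq x₀ x₁ x₂ e := by
  have h2 : 0 < x₂ := by linarith
  have d1 : 0 < x₂ - x₁ := sub_pos.2 h12
  have d0 : 0 < x₁ - x₀ := sub_pos.2 h01
  unfold Mq
  positivity

lemma Mq_mono {e e' : ℝ} (he : e ≤ e') : Mq x₀ x₁ x₂ e ≤ Mq x₀ x₁ x₂ e' := by
  have h2 : 1 ≤ x₂ := by linarith
  have d1 : 0 < x₂ - x₁ := sub_pos.2 h12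
  have d0 : 0 < x₁ - x₀ := sub_pos.2 h01
  have h3 := Real.rpow_le_rpow_of_exponent_le h2 he
  unfold Mq
  gcongr

lemma Gq_le {w : ℂ} {e : ℝ} (hw : 0 ≤ w.re + 1) (he : w.re + 1 ≤ e) :
    ‖Gq x₀ x₁ x₂ w‖ ≤ Mq x₀ x₁ x₂ e :=
  (Gq_norm (by linarith) h01 h12 w hw).trans (Mq_mono h0 h01 h12 he)

end nodes

/-- The function for the contour shift. -/
noncomputable def F2 (x₀ x₁ x₂ t : ℝ) (s : ℂ) : ℂ :=
  Hz s * (dslope (Gq x₀ x₁ x₂) 0 (s - 1 - t * I) / (s - t * I))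

section shift

variable {x₀ x₁ x₂ : ℝ} (h0 : 1 ≤ x₀) (h01 : x₀ < x₁) (h12 : x₁ < x₂) (t : ℝ)

include h0 h01 h12

lemma F2_diff (hRH : RiemannHypothesis) : DifferentiableOn ℂ (F2 x₀ x₁ x₂ t) OM := by
  have h1 : Differentiable ℂ (dslope (Gq x₀ x₁ x₂) 0) := by
    rw [← differentiableOn_univ]
    exact (Complex.differentiableOn_dslope univ_mem).2
      (Gq_diff (by linarith) h01 h12).differentiableOn
  refine (Hz_diff hRH).mul (DifferentiableOn.div ?_ (by fun_prop) fun s hs => ?_)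
  · exact (h1.comp (by fun_prop : Differentiable ℂ fun s : ℂ => s - 1 - t * I)).differentiableOn
  · intro h2
    have h3 := congrArg Complex.re h2
    have hs' : 1 / 2 < s.re := hs
    simp at h3
    linarith

lemma F2_eq {s : ℂ} (hs : s - 1 - t * I ≠ 0) : F2 x₀ x₁ x₂ t s =
    Hz s * (Gq x₀ x₁ x₂ (s - 1 - t * I) * kq (s - 1 - t * I)) := by
  have e1 : s - 1 - t * I + 1 = s - t * I := by ring
  unfold F2 kq
  rw [dslope_of_ne _ hs, slope_def_field, Gq_zero (by linarith) h01 h12, sub_zero, sub_zero, e1,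
    one_div, mul_inv]
  ring

/-- The decay for the contour shift. -/
lemma F2_jb (hRH : RiemannHypothesis) {δ : ℝ} (hδ : 0 < δ) (hδ1 : δ ≤ 1) :
    ∃ C : ℝ, ∀ σ ∈ Icc (1 / 2 + δ) (3 / 2 : ℝ), ∀ y : ℝ,
      ‖F2 x₀ x₁ x₂ t (σ + y * I)‖ ≤ C * jb y := by
  obtain ⟨Cg, hCg, hg⟩ := Hz_growth hRH hδ hδ1
  set Y : ℝ := 4 + 2 * |t| with hY
  have hY0 : 4 ≤ Y := by have := abs_nonneg t; linarith
  have hcomp : IsCompact ((Icc (1 / 2 + δ) (3 / 2 : ℝ)) ×ℂ (Icc (-Y) Y)) :=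
    isCompact_Icc.reProdIm isCompact_Icc
  have hsub : ((Icc (1 / 2 + δ) (3 / 2 : ℝ)) ×ℂ (Icc (-Y) Y)) ⊆ OM := by
    intro s hs
    rw [Complex.mem_reProdIm] at hs
    have := hs.1.1
    show 1 / 2 < s.re
    linarith
  obtain ⟨M, hM⟩ := hcomp.exists_bound_of_continuousOn
    ((F2_diff h0 h01 h12 t hRH).continuousOn.mono hsub)
  have hjY := jb_pos Y
  set D : ℝ := Cg * Mq x₀ x₁ x₂ (3 / 2) * 4 * 2 ^ (3 / 2 : ℝ) with hD
  have hMq := Mq_nonneg h0 h01 h12 (3 / 2)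
  have hD0 : 0 ≤ D := by positivity
  refine ⟨|M| / jb Y + D, fun σ hσ y => ?_⟩
  have hjy := jb_pos y
  rcases le_or_gt |y| Y with h | h
  · have h1 := hM (σ + y * I) (by
      rw [Complex.mem_reProdIm]
      refine ⟨by simpa using hσ, by simpa using abs_le.1 h⟩)
    have h2 : jb Y ≤ jb y := by
      unfold jb
      refine Real.rpow_le_rpow_of_nonpos (by positivity) ?_ (by norm_num)
      rw [Real.norm_eq_abs, Real.norm_eq_abs, abs_of_nonneg (by linarith : (0 : ℝ) ≤ Y)]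
      linarith
    have h3 : |M| ≤ |M| / jb Y * jb y := by
      rw [div_mul_eq_mul_div, le_div_iff₀ hjY]
      exact mul_le_mul_of_nonneg_left h2 (abs_nonneg M)
    have h4 : 0 ≤ D * jb y := by positivity
    rw [add_mul]
    linarith [le_abs_self M]
  · have hy4 : 4 < |y| := by linarith
    have hy0 : 0 < |y| := by linarith
    set w : ℂ := (σ + y * I) - 1 - t * I with hw
    have hwre : w.re + 1 = σ := by simp [hw]
    have hwim : w.im = y - t := by simp [hw]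
    have hyt : |y| / 2 ≤ |y - t| := by
      have h5 : |y| ≤ |y - t| + |t| := by
        have := abs_add_le (y - t) t
        rwa [sub_add_cancel] at this
      linarith
    have hn1 : |y| / 2 ≤ ‖w‖ := by
      have := Complex.abs_im_le_norm w
      rw [hwim] at this
      linarith
    have hn2 : |y| / 2 ≤ ‖w + 1‖ := by
      have := Complex.abs_im_le_norm (w + 1)
      rw [Complex.add_im, Complex.one_im, add_zero, hwim] at this
      linarith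
    have hw0 : w ≠ 0 := by
      intro h5
      rw [h5, norm_zero] at hn1
      linarith
    rw [F2_eq h0 h01 h12 t hw0, norm_mul, norm_mul]
    have b1 : ‖Hz (σ + y * I)‖ ≤ Cg * |y| ^ (1 / 2 : ℝ) := by
      have := hg (σ + y * I) (by simpa using hσ.1) (by
        have := hσ.2
        simp
        linarith) (by simpa using hy4.le)
      simpa using this
    have b2 : ‖Gq x₀ x₁ x₂ w‖ ≤ Mq x₀ x₁ x₂ (3 / 2) :=
      Gq_le h0 h01 h12 (by rw [hwre]; linarith [hσ.1]) (by rw [hwre]; exact hσ.2)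
    have b3 : ‖kq w‖ ≤ 4 / |y| ^ 2 := by
      unfold kq
      rw [norm_div, norm_one, norm_mul, div_le_div_iff₀ (by
        have : 0 < |y| / 2 := by positivity
        exact mul_pos (this.trans_le hn1) (this.trans_le hn2)) (by positivity)]
      have h5 : |y| / 2 * (|y| / 2) ≤ ‖w‖ * ‖w + 1‖ :=
        mul_le_mul hn1 hn2 (by positivity) (norm_nonneg _)
      nlinarith
    have b4 : |y| ^ (1 / 2 : ℝ) * (1 / |y| ^ 2) ≤ 2 ^ (3 / 2 : ℝ) * jb y := by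
      have e1 : |y| ^ (1 / 2 : ℝ) * (1 / |y| ^ 2) = |y| ^ (-(3 / 2) : ℝ) := by
        have e3 : 1 / |y| ^ 2 = |y| ^ (-(2 : ℝ)) := by
          rw [Real.rpow_neg hy0.le, Real.rpow_two, one_div]
        rw [e3, ← Real.rpow_add hy0]
        norm_num
      have e2 : (2 : ℝ) ^ (3 / 2 : ℝ) * jb y = ((1 + |y|) / 2) ^ (-(3 / 2) : ℝ) := by
        unfold jb
        rw [Real.div_rpow (by positivity) (by norm_num), Real.rpow_neg (by norm_num : (0 : ℝ) ≤ 2),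
          Real.norm_eq_abs]
        field_simp
      rw [e1, e2]
      exact Real.rpow_le_rpow_of_nonpos (by positivity) (by linarith) (by norm_num)
    have hGk : ‖Gq x₀ x₁ x₂ w‖ * ‖kq w‖ ≤ Mq x₀ x₁ x₂ (3 / 2) * (4 / |y| ^ 2) :=
      mul_le_mul b2 b3 (norm_nonneg _) hMq
    have h6 : 0 ≤ |M| / jb Y * jb y := by positivity
    calc ‖Hz (σ + y * I)‖ * (‖Gq x₀ x₁ x₂ w‖ * ‖kq w‖)
        ≤ (Cg * |y| ^ (1 / 2 : ℝ)) * (Mq x₀ x₁ x₂ (3 / 2) * (4 / |y| ^ 2)) :=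
          mul_le_mul b1 hGk (by positivity) (by positivity)
      _ = Cg * Mq x₀ x₁ x₂ (3 / 2) * 4 * (|y| ^ (1 / 2 : ℝ) * (1 / |y| ^ 2)) := by ring
      _ ≤ Cg * Mq x₀ x₁ x₂ (3 / 2) * 4 * (2 ^ (3 / 2 : ℝ) * jb y) :=
          mul_le_mul_of_nonneg_left b4 (by positivity)
      _ = D * jb y := by rw [hD]; ring
      _ ≤ (|M| / jb Y + D) * jb y := by rw [add_mul]; linarith

/-- The shifted integral. -/
lemma F2_shift (hRH : RiemannHypothesis) {δ : ℝ} (hδ : 0 < δ) (hδ1 : δ ≤ 1) :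
    Integrable (fun v : ℝ => Hz (vl (3 / 2) (t + v)) *
      (Gq x₀ x₁ x₂ (vl (1 / 2) v) * kq (vl (1 / 2) v))) ∧
    ∫ v : ℝ, Hz (vl (3 / 2) (t + v)) * (Gq x₀ x₁ x₂ (vl (1 / 2) v) * kq (vl (1 / 2) v)) =
      ∫ y : ℝ, F2 x₀ x₁ x₂ t (((1 / 2 + δ : ℝ) : ℂ) + y * I) := by
  obtain ⟨C, hC⟩ := F2_jb h0 h01 h12 t hRH hδ hδ1
  have hd := F2_diff h0 h01 h12 t hRH
  have h1 := contour_shift hd (a := 1 / 2 + δ) (b := 3 / 2) (C := C) (by linarith) (by linarith) hC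
  have e : (fun v : ℝ => Hz (vl (3 / 2) (t + v)) *
      (Gq x₀ x₁ x₂ (vl (1 / 2) v) * kq (vl (1 / 2) v))) =
      fun v : ℝ => F2 x₀ x₁ x₂ t (((3 / 2 : ℝ) : ℂ) + ((t + v : ℝ) : ℂ) * I) := by
    funext v
    have e1 : ((3 / 2 : ℝ) : ℂ) + ((t + v : ℝ) : ℂ) * I - 1 - t * I = vl (1 / 2) v := by
      unfold vl
      push_cast
      ring
    rw [F2_eq h0 h01 h12 t (by rw [e1]; exact vl_ne (by norm_num) v), e1]
  have h2 : Integrable fun y : ℝ => F2 x₀ x₁ x₂ t (((3 / 2 : ℝ) : ℂ) + y * I) :=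
    integrable_line hd (a := 3 / 2) (C := C) (by norm_num)
      (hC (3 / 2) ⟨by linarith, le_rfl⟩)
  rw [e, h1]
  refine ⟨?_, ?_⟩
  · exact h2.comp_add_left t
  · exact integral_add_left_eq_self (fun y : ℝ => F2 x₀ x₁ x₂ t (((3 / 2 : ℝ) : ℂ) + y * I)) t

end shift

end Pool.Agent.Lib.MP_6bc78b_nt.GP.H66
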