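import Pool.Agent.Lib.MP_6bc78b_nt.GP.H66.Prb4

/-! GP7, row PRBX, part 5: the size of the two integrals. -/

set_option autoImplicit false

open Complex Filter Topology MeasureTheory Set ArithmeticFunction Metric

namespace Pool.Agent.Lib.MP_6bc78b_nt.GP.H66

open Pool.Agent.Lib.MP_6bc78b_nt.H11

lemma log_jb (u : ℝ) : (1 + Real.log (1 + |u|)) * (1 / (1 + u ^ 2)) ≤ 6 * jb u := by
  have hu := abs_nonneg u
  have h0 : (0 : ℝ) < 1 + |u| := by positivity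
  have h1 := Real.log_le_rpow_div (x := 1 + |u|) h0.le (ε := 1 / 2) (by norm_num)
  have h2 : 1 ≤ (1 + |u|) ^ (1 / 2 : ℝ) := Real.one_le_rpow (by linarith) (by norm_num)
  have h3 : 1 + Real.log (1 + |u|) ≤ 3 * (1 + |u|) ^ (1 / 2 : ℝ) := by linarith
  have h4 : 1 / (1 + u ^ 2) ≤ 2 * (1 + |u|) ^ (-(2 : ℝ)) := by
    rw [Real.rpow_neg h0.le, Real.rpow_two, ← div_eq_mul_inv,
      div_le_div_iff₀ (by positivity) (by positivity)]
    have := sq_abs u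
    nlinarith [sq_nonneg (|u| - 1)]
  have h5 : 0 ≤ Real.log (1 + |u|) := Real.log_nonneg (by linarith)
  have e : (6 : ℝ) * jb u = (3 * (1 + |u|) ^ (1 / 2 : ℝ)) * (2 * (1 + |u|) ^ (-(2 : ℝ))) := by
    have e1 : (1 + |u|) ^ (1 / 2 : ℝ) * (1 + |u|) ^ (-(2 : ℝ)) = jb u := by
      rw [← Real.rpow_add h0]
      unfold jb
      rw [Real.norm_eq_abs]
      norm_num
    rw [← e1]
    ring
  rw [e]
  exact mul_le_mul h3 h4 (by positivity) (by positivity)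

lemma log_split (t u : ℝ) : Real.log (3 + |t + u|) ≤
    Real.log (3 + |t|) * (1 + Real.log (1 + |u|)) := by
  have hu := abs_nonneg u
  have ht := abs_nonneg t
  have h1 : 1 ≤ Real.log (3 + |t|) := by
    rw [Real.le_log_iff_exp_le (by positivity)]
    exact Real.exp_one_lt_d9.le.trans (by linarith)
  have h2 : 0 ≤ Real.log (1 + |u|) := Real.log_nonneg (by linarith)
  have h3 : Real.log (3 + |t + u|) ≤ Real.log ((3 + |t|) * (1 + |u|)) := by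
    refine Real.log_le_log (by positivity) ?_
    have := abs_add_le t u
    nlinarith
  rw [Real.log_mul (by positivity) (by positivity)] at h3
  nlinarith

/-- The kernel on the shifted line. -/
lemma kq_le {δ : ℝ} (hδ : 0 < δ) (hδ1 : δ ≤ 1 / 8) (u : ℝ) :
    ‖kq (vl (-(1 / 2) + δ) u)‖ ≤ 8 * (1 / (1 + u ^ 2)) := by
  have e1 : vl (-(1 / 2) + δ) u + 1 = vl (1 / 2 + δ) u := by
    unfold vl
    push_cast
    ring
  have h1 := vl_norm_sq (-(1 / 2) + δ) u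
  have h2 := vl_norm_sq (1 / 2 + δ) u
  have h3 : ‖vl (-(1 / 2) + δ) u‖ ≤ ‖vl (1 / 2 + δ) u‖ := by
    refine le_of_sq_le_sq ?_ (norm_nonneg _)
    rw [h1, h2]
    nlinarith
  have h4 : 0 < ‖vl (-(1 / 2) + δ) u‖ := norm_pos_iff.2 (vl_ne (by linarith) u)
  unfold kq
  rw [e1, norm_div, norm_one, norm_mul, mul_one_div,
    div_le_div_iff₀ (mul_pos h4 (h4.trans_le h3)) (by positivity)]
  have h5 : ‖vl (-(1 / 2) + δ) u‖ ^ 2 ≤ ‖vl (-(1 / 2) + δ) u‖ * ‖vl (1 / 2 + δ) u‖ := by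
    rw [sq]
    exact mul_le_mul_of_nonneg_left h3 h4.le
  rw [h1] at h5
  nlinarith

lemma inv_sq_int : ∫ v : ℝ, 1 / (1 + v ^ 2) = Real.pi := by
  have h := integral_univ_inv_one_add_sq
  have e : (fun v : ℝ => 1 / (1 + v ^ 2)) = fun v : ℝ => (1 + v ^ 2)⁻¹ := by
    funext v
    rw [one_div]
  rw [e]
  exact h

lemma inv_sq_integrable : Integrable fun v : ℝ => 1 / (1 + v ^ 2) := by
  have e : (fun v : ℝ => 1 / (1 + v ^ 2)) = fun v : ℝ => (1 + v ^ 2)⁻¹ := by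
    funext v
    rw [one_div]
  rw [e]
  exact integrable_inv_one_add_sq

/-- Two kernels. -/
lemma two_ker {t : ℝ} (ht : t ≠ 0) (v : ℝ) :
    1 / (1 / 4 + (t + v) ^ 2) * (1 / (1 + v ^ 2)) ≤
      2 / t ^ 2 * (1 / (1 + v ^ 2) + 4 * (1 / (1 + (t + v) ^ 2))) := by
  have ht2 : 0 < t ^ 2 := by positivity
  have hA : 0 < 1 / 4 + (t + v) ^ 2 := by positivity
  have hB : 0 < 1 + v ^ 2 := by positivity
  have h1 : 1 / (1 / 4 + (t + v) ^ 2) ≤ 4 * (1 / (1 + (t + v) ^ 2)) := by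
    rw [mul_one_div, div_le_div_iff₀ hA (by positivity)]
    nlinarith [sq_nonneg (t + v)]
  have h2 : 1 / (1 / 4 + (t + v) ^ 2) * (1 / (1 + v ^ 2)) ≤
      2 / t ^ 2 * (1 / (1 + v ^ 2) + 1 / (1 / 4 + (t + v) ^ 2)) := by
    have e : 2 / t ^ 2 * (1 / (1 + v ^ 2) + 1 / (1 / 4 + (t + v) ^ 2)) =
        (2 * ((1 / 4 + (t + v) ^ 2) + (1 + v ^ 2)) / t ^ 2) *
          (1 / (1 / 4 + (t + v) ^ 2) * (1 / (1 + v ^ 2))) := by
      field_simp
    rw [e]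
    refine le_mul_of_one_le_left (by positivity) ?_
    rw [one_le_div ht2]
    nlinarith [sq_nonneg (t + 2 * v)]
  refine h2.trans (mul_le_mul_of_nonneg_left ?_ (by positivity))
  linarith

/-- The total bound. -/
lemma sum_le (hRH : RiemannHypothesis) : ∃ C : ℝ, 0 < C ∧ ∀ x₀ x₁ x₂ t δ : ℝ, 1 ≤ x₀ →
    x₀ < x₁ → x₁ < x₂ → t ≠ 0 → 0 < δ → δ ≤ 1 / 8 →
    ‖∑' n : ℕ, (Ll n : ℂ) * (n : ℂ) ^ (-(1 + t * I : ℂ)) * ((hq x₀ x₁ x₂ n : ℝ) : ℂ)‖ ≤
      C * (Mq x₀ x₁ x₂ (1 / 2 + δ) * Real.log (3 + |t|) / δ ^ 2 +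
        Mq x₀ x₁ x₂ (3 / 2) / t ^ 2) := by
  obtain ⟨C, hC, hz⟩ := Hz_le hRH
  set J : ℝ := ∫ u, jb u with hJ
  have hJ0 : 0 ≤ J := integral_nonneg fun u => (jb_pos u).le
  refine ⟨48 * C * J + 40 * Real.pi, by have := Real.pi_pos; positivity, ?_⟩
  intro x₀ x₁ x₂ t δ h0 h01 h12 ht hδ hδ1
  have hM1 := Mq_nonneg h0 h01 h12 (1 / 2 + δ)
  have hM2 := Mq_nonneg h0 h01 h12 (3 / 2)
  have hlog : 0 ≤ Real.log (3 + |t|) := Real.log_nonneg (by have := abs_nonneg t; linarith)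
  obtain ⟨hi1, he1⟩ := F2_shift h0 h01 h12 t hRH hδ (by linarith)
  rw [(hq_sum (by linarith) h01 h12 t).tsum_eq]
  -- the pole part
  have hP : ∀ v : ℝ, ‖((vl (3 / 2) (t + v) - 1) ^ 2)⁻¹ *
      (Gq x₀ x₁ x₂ (vl (1 / 2) v) * kq (vl (1 / 2) v))‖ ≤
      (4 * Mq x₀ x₁ x₂ (3 / 2)) * (2 / t ^ 2 * (1 / (1 + v ^ 2) +
        4 * (1 / (1 + (t + v) ^ 2)))) := by
    intro v
    have e1 : vl (3 / 2) (t + v) - 1 = vl (1 / 2) (t + v) := by
      unfold vl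
      push_cast
      ring
    have h1 : ‖Gq x₀ x₁ x₂ (vl (1 / 2) v)‖ ≤ Mq x₀ x₁ x₂ (3 / 2) :=
      Gq_le h0 h01 h12 (by rw [vl_re]; norm_num) (by rw [vl_re]; norm_num)
    have h2 : ‖kq (vl (1 / 2) v)‖ ≤ 4 * (1 / (1 + v ^ 2)) := by
      rw [mul_one_div]
      exact ker_le v
    have h3 : ‖((vl (3 / 2) (t + v) - 1) ^ 2)⁻¹‖ = 1 / (1 / 4 + (t + v) ^ 2) := by
      rw [e1, norm_inv, norm_pow, vl_norm_sq, one_div]
      norm_num
    rw [norm_mul, norm_mul, h3]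
    calc 1 / (1 / 4 + (t + v) ^ 2) * (‖Gq x₀ x₁ x₂ (vl (1 / 2) v)‖ * ‖kq (vl (1 / 2) v)‖)
        ≤ 1 / (1 / 4 + (t + v) ^ 2) * (Mq x₀ x₁ x₂ (3 / 2) * (4 * (1 / (1 + v ^ 2)))) := by
          gcongr
      _ = (4 * Mq x₀ x₁ x₂ (3 / 2)) * (1 / (1 / 4 + (t + v) ^ 2) * (1 / (1 + v ^ 2))) := by
          ring
      _ ≤ _ := mul_le_mul_of_nonneg_left (two_ker ht v) (by positivity)
  have hPi : Integrable fun v : ℝ => (4 * Mq x₀ x₁ x₂ (3 / 2)) * (2 / t ^ 2 *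
      (1 / (1 + v ^ 2) + 4 * (1 / (1 + (t + v) ^ 2)))) := by
    refine Integrable.const_mul (Integrable.const_mul ?_ _) _
    exact inv_sq_integrable.add ((inv_sq_integrable.comp_add_left t).const_mul 4)
  have hPe : ∫ v : ℝ, (4 * Mq x₀ x₁ x₂ (3 / 2)) * (2 / t ^ 2 *
      (1 / (1 + v ^ 2) + 4 * (1 / (1 + (t + v) ^ 2)))) =
      40 * Real.pi * (Mq x₀ x₁ x₂ (3 / 2) / t ^ 2) := by
    have h1 : ∫ v : ℝ, 1 / (1 + (t + v) ^ 2) = Real.pi :=
      (integral_add_left_eq_self (μ := volume) (fun v : ℝ => 1 / (1 + v ^ 2)) t).trans inv_sq_int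
    rw [integral_const_mul, integral_const_mul, integral_add inv_sq_integrable
      ((inv_sq_integrable.comp_add_left t).const_mul 4), integral_const_mul, h1, inv_sq_int]
    ring
  -- measurability of the pole part
  have hPc : Continuous fun v : ℝ => ((vl (3 / 2) (t + v) - 1) ^ 2)⁻¹ *
      (Gq x₀ x₁ x₂ (vl (1 / 2) v) * kq (vl (1 / 2) v)) := by
    have e1 : ∀ v : ℝ, vl (3 / 2) (t + v) - 1 = vl (1 / 2) (t + v) := fun v => by
      unfold vl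
      push_cast
      ring
    refine Continuous.mul (Continuous.inv₀ (by unfold vl; fun_prop) fun v => ?_)
      (Continuous.mul ((Gq_diff (by linarith) h01 h12).continuous.comp (by unfold vl; fun_prop)) ?_)
    · rw [e1]
      exact pow_ne_zero 2 (vl_ne (by norm_num) _)
    · exact ker_cont
  have hPi' : Integrable fun v : ℝ => ((vl (3 / 2) (t + v) - 1) ^ 2)⁻¹ *
      (Gq x₀ x₁ x₂ (vl (1 / 2) v) * kq (vl (1 / 2) v)) :=
    Integrable.mono' hPi hPc.aestronglyMeasurable (ae_of_all _ hP)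
  have hsplit : ∫ v : ℝ, Fz (vl (3 / 2) (t + v)) *
        (Gq x₀ x₁ x₂ (vl (1 / 2) v) * kq (vl (1 / 2) v)) =
      (∫ v : ℝ, Hz (vl (3 / 2) (t + v)) *
        (Gq x₀ x₁ x₂ (vl (1 / 2) v) * kq (vl (1 / 2) v))) +
      ∫ v : ℝ, ((vl (3 / 2) (t + v) - 1) ^ 2)⁻¹ *
        (Gq x₀ x₁ x₂ (vl (1 / 2) v) * kq (vl (1 / 2) v)) := by
    rw [← integral_add hi1 hPi']
    refine integral_congr_ae (ae_of_all _ fun v => ?_)
    have h1 : vl (3 / 2) (t + v) ∈ OM := by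
      show 1 / 2 < (vl (3 / 2) (t + v)).re
      rw [vl_re]
      norm_num
    have h2 : vl (3 / 2) (t + v) ≠ 1 := by
      intro h3
      have h4 := congrArg Complex.re h3
      rw [vl_re, Complex.one_re] at h4
      norm_num at h4
    show Fz (vl (3 / 2) (t + v)) * _ = Hz (vl (3 / 2) (t + v)) * _ + _
    rw [Hz_eq hRH h1 h2]
    ring
  -- the shifted integral
  have hS : ∀ y : ℝ, ‖F2 x₀ x₁ x₂ t (((1 / 2 + δ : ℝ) : ℂ) + y * I)‖ ≤
      (48 * C * Mq x₀ x₁ x₂ (1 / 2 + δ) * Real.log (3 + |t|) / δ ^ 2) * jb (y - t) := by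
    intro y
    have e1 : ((1 / 2 + δ : ℝ) : ℂ) + y * I - 1 - t * I = vl (-(1 / 2) + δ) (y - t) := by
      unfold vl
      push_cast
      ring
    have hre : (vl (-(1 / 2) + δ) (y - t)).re + 1 = 1 / 2 + δ := by
      rw [vl_re]
      ring
    rw [F2_eq h0 h01 h12 t (by rw [e1]; exact vl_ne (by linarith) _), e1, norm_mul, norm_mul]
    have h1 := hz δ y hδ hδ1
    have h2 : ‖Gq x₀ x₁ x₂ (vl (-(1 / 2) + δ) (y - t))‖ ≤ Mq x₀ x₁ x₂ (1 / 2 + δ) :=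
      Gq_le h0 h01 h12 (by rw [hre]; linarith) hre.le
    have h3 := kq_le hδ hδ1 (y - t)
    have h4 := log_split t (y - t)
    rw [add_sub_cancel] at h4
    have h5 := log_jb (y - t)
    have h6 : 0 ≤ Real.log (1 + |y - t|) :=
      Real.log_nonneg (by have := abs_nonneg (y - t); linarith)
    have h7 : 0 ≤ Real.log (3 + |y|) := Real.log_nonneg (by have := abs_nonneg y; linarith)
    calc ‖Hz (vl (1 / 2 + δ) y)‖ * (‖Gq x₀ x₁ x₂ (vl (-(1 / 2) + δ) (y - t))‖ *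
          ‖kq (vl (-(1 / 2) + δ) (y - t))‖)
        ≤ (C * (Real.log (3 + |t|) * (1 + Real.log (1 + |y - t|))) / δ ^ 2) *
          (Mq x₀ x₁ x₂ (1 / 2 + δ) * (8 * (1 / (1 + (y - t) ^ 2)))) := by
          refine mul_le_mul (h1.trans ?_) (mul_le_mul h2 h3 (norm_nonneg _) hM1)
            (by positivity) (by positivity)
          gcongr
      _ = (8 * C * Mq x₀ x₁ x₂ (1 / 2 + δ) * Real.log (3 + |t|) / δ ^ 2) *
          ((1 + Real.log (1 + |y - t|)) * (1 / (1 + (y - t) ^ 2))) := by ring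
      _ ≤ (8 * C * Mq x₀ x₁ x₂ (1 / 2 + δ) * Real.log (3 + |t|) / δ ^ 2) * (6 * jb (y - t)) :=
          mul_le_mul_of_nonneg_left h5 (by positivity)
      _ = _ := by ring
  have hSi : Integrable fun y : ℝ =>
      (48 * C * Mq x₀ x₁ x₂ (1 / 2 + δ) * Real.log (3 + |t|) / δ ^ 2) * jb (y - t) :=
    (jb_integrable.comp_sub_right t).const_mul _
  have hSb := norm_integral_le_of_norm_le hSi (ae_of_all _ hS)
  have hSe : ∫ y : ℝ, (48 * C * Mq x₀ x₁ x₂ (1 / 2 + δ) * Real.log (3 + |t|) / δ ^ 2) *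
      jb (y - t) = (48 * C * Mq x₀ x₁ x₂ (1 / 2 + δ) * Real.log (3 + |t|) / δ ^ 2) * J := by
    rw [integral_const_mul, integral_sub_right_eq_self (fun y : ℝ => jb y) t]
  have hPb := norm_integral_le_of_norm_le hPi (ae_of_all _ hP)
  rw [hSe] at hSb
  rw [hPe] at hPb
  rw [hsplit, he1, norm_mul]
  have h2π : ‖(1 / (2 * Real.pi) : ℂ)‖ ≤ 1 := by
    have e : (1 / (2 * Real.pi) : ℂ) = ((1 / (2 * Real.pi) : ℝ) : ℂ) := by
      push_cast
      rfl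
    have hpi := Real.pi_gt_three
    rw [e, Complex.norm_real, Real.norm_eq_abs, abs_of_pos (by positivity),
      div_le_one (by positivity)]
    linarith
  have hA : 0 ≤ Mq x₀ x₁ x₂ (1 / 2 + δ) * Real.log (3 + |t|) / δ ^ 2 := by positivity
  have hB : 0 ≤ Mq x₀ x₁ x₂ (3 / 2) / t ^ 2 := by positivity
  have hpi := Real.pi_pos
  refine (mul_le_mul h2π ((norm_add_le _ _).trans (add_le_add hSb hPb)) (norm_nonneg _)
    zero_le_one).trans ?_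
  have hx1 : 0 ≤ 40 * Real.pi * (Mq x₀ x₁ x₂ (1 / 2 + δ) * Real.log (3 + |t|) / δ ^ 2) := by
    positivity
  have hx2 : 0 ≤ 48 * C * J * (Mq x₀ x₁ x₂ (3 / 2) / t ^ 2) := by positivity
  have e : 48 * C * Mq x₀ x₁ x₂ (1 / 2 + δ) * Real.log (3 + |t|) / δ ^ 2 * J =
      48 * C * J * (Mq x₀ x₁ x₂ (1 / 2 + δ) * Real.log (3 + |t|) / δ ^ 2) := by ring
  rw [e]
  nlinarith

end Pool.Agent.Lib.MP_6bc78b_nt.GP.H66
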